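import Pool.Agent.H50.WR.Defs
import Pool.Graph.R_seed8.R940.Main

/-!
# Ranks of rational cycles and orders of zeta functions over one finite field
-/

set_option linter.unusedSectionVars false

open CategoryTheory AlgebraicGeometry Finset Polynomial

universe u v

namespace Pool.Agent.H50.WR

open Pool.Agent.H914 Pool.Agent.H447 Pool.Agent.W534 VarClass Obj WeilCohomology

section Lin

variable {K : Type*} [Field K] [CharZero K] {V : Type*} [AddCommGroup V] [Module K V]
  [FiniteDimensional K V] {α S : Type*}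

lemma card_le_of_indep (φ : α → S → ℚ) (x : α → V) (B : S → V →ₗ[K] K)
    (h : ∀ a w, B w (x a) = (φ a w : K)) {ι : Type*} [Fintype ι] (z : ι → α)
    (hz : LinearIndependent ℚ (fun i => φ (z i))) : Fintype.card ι ≤ Module.finrank K V := by
  have h2 : LinearIndependent K (fun i => x (z i)) := by
    rw [Fintype.linearIndependent_iff]
    intro c hc
    have h3 := lin_ext (K := K) hz (c := c) (by
      intro w
      have h2 := congrArg (B w) hc
      rw [map_sum, map_zero] at h2
      rw [← h2]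
      refine Finset.sum_congr rfl fun i _ => ?_
      rw [map_smul, h, smul_eq_mul])
    intro i
    rw [h3]; rfl
  exact h2.fintype_card_le_finrank

lemma rat_finite (φ : α → S → ℚ) (x : α → V) (B : S → V →ₗ[K] K)
    (h : ∀ a w, B w (x a) = (φ a w : K)) :
    ∃ b : Finset (S → ℚ), Submodule.span ℚ (b : Set (S → ℚ)) = Submodule.span ℚ (Set.range φ) ∧
      Module.finrank ℚ (Submodule.span ℚ (Set.range φ)) = b.card ∧ b.card ≤ Module.finrank K V := by
  classical
  obtain ⟨b, hb, hspan, hlin⟩ := exists_linearIndependent ℚ (Set.range φ)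
  choose zf hzf using fun x : b => hb x.2
  have hfin : b.Finite := by
    by_contra hinf
    obtain ⟨t, ht, hcard⟩ := Set.Infinite.exists_subset_card_eq hinf (Module.finrank K V + 1)
    have h2 := card_le_of_indep φ x B h (ι := t) (fun x => zf ⟨x, ht x.2⟩) (by
      have e : (fun x : t => φ (zf ⟨x, ht x.2⟩)) =
          (fun x : b => (x : S → ℚ)) ∘ (fun x : t => (⟨x, ht x.2⟩ : b)) := funext fun x => hzf _
      rw [e]
      exact hlin.comp _ (by
        intro x y hxy
        have := congrArg Subtype.val hxy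
        exact Subtype.ext this))
    rw [Fintype.card_coe, hcard] at h2
    omega
  have : Fintype b := hfin.fintype
  refine ⟨hfin.toFinset, by rw [Set.Finite.coe_toFinset]; exact hspan, ?_, ?_⟩
  · rw [← hspan, finrank_span_set_eq_card hlin]
    congr 1
    ext y
    simp
  · have h2 := card_le_of_indep φ x B h zf (by
      have e : (fun x : b => φ (zf x)) = (fun x : b => (x : S → ℚ)) := funext hzf
      rw [e]
      exact hlin)
    refine le_trans (le_of_eq ?_) h2
    rw [← Set.toFinset_card]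
    congr 1
    ext y
    simp

lemma rat_le (φ : α → S → ℚ) (x : α → V) (B : S → V →ₗ[K] K)
    (h : ∀ a w, B w (x a) = (φ a w : K)) :
    Module.finrank ℚ (Submodule.span ℚ (Set.range φ)) ≤ Module.finrank K V := by
  obtain ⟨b, _, h1, h2⟩ := rat_finite φ x B h
  rw [h1]
  exact h2

lemma rat_ge (φ : α → S → ℚ) (x : α → V) (B : S → V →ₗ[K] K)
    (h : ∀ a w, B w (x a) = (φ a w : K)) (hinj : ∀ v : V, (∀ w, B w v = 0) → v = 0)
    (hspan : ∀ v : V, v ∈ Submodule.span K (Set.range x)) :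
    Module.finrank K V ≤ Module.finrank ℚ (Submodule.span ℚ (Set.range φ)) := by
  classical
  obtain ⟨b0, hb0, _, _⟩ := rat_finite φ x B h
  have hfin : Module.Finite ℚ (Submodule.span ℚ (Set.range φ)) := by
    rw [← hb0]
    exact Module.Finite.span_of_finite ℚ b0.finite_toSet
  obtain ⟨b, hb, hsp, hlin⟩ := exists_linearIndependent K (Set.range x)
  choose zg hzg using fun y : b => hb y.2
  have hft : Fintype b := hlin.setFinite.fintype
  have h4 : LinearIndependent ℚ (fun y => φ (zg y)) := by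
    rw [Fintype.linearIndependent_iff]
    intro c hc y
    have h5 : ∑ y, ((c y : ℚ) : K) • (y : V) = 0 := by
      apply hinj
      intro w
      have h6 := congrFun hc w
      rw [Finset.sum_apply, Pi.zero_apply] at h6
      have h7 := congrArg (fun q : ℚ => (q : K)) h6
      simp only [Rat.cast_sum, Pi.smul_apply, smul_eq_mul, Rat.cast_mul, Rat.cast_zero] at h7
      rw [map_sum, ← h7]
      refine Finset.sum_congr rfl fun y _ => ?_
      rw [map_smul, smul_eq_mul, ← h, hzg]
    have h8 := Fintype.linearIndependent_iff.1 hlin (fun y => ((c y : ℚ) : K)) h5 y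
    exact_mod_cast h8
  have h9 : Module.finrank K V = Fintype.card b := by
    have e1 : Submodule.span K b = ⊤ := by
      rw [hsp]
      exact eq_top_iff.2 fun v _ => hspan v
    rw [← finrank_top K V, ← e1, finrank_span_set_eq_card hlin, Set.toFinset_card]
  rw [h9, ← finrank_span_eq_card h4]
  apply Submodule.finrank_mono
  rw [Submodule.span_le]
  rintro _ ⟨y, rfl⟩
  exact Submodule.subset_span ⟨_, rfl⟩

end Lin

variable {k : Type u} [Field k] {𝒱 : VarClass k} {ops : CycleOps 𝒱}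
  {W : WeilCohomology.{u, v} ops} {Z : 𝒱.Obj} {p : ℕ} {Φ : FrobSystem W p}

/-- A power of the endomorphism is a Frobenius endomorphism. -/
structure IsFr (Φ : FrobSystem W p) (f : Z ⟶ Z) (Q : ℕ) : Prop where
  pos : 1 < Q
  ex : ∃ m s : ℕ, 0 < m ∧ 0 < s ∧ (W.map f).toLinearMap ^ m = frob Φ Z s ∧
    Q ^ m = Pool.Agent.W534.card Φ Z s

/-- The pull-back. -/
noncomputable def gg (W : WeilCohomology.{u, v} ops) (f : Z ⟶ Z) : Module.End W.K (W.H Z) :=
  (W.map f).toLinearMap

lemma gg_apply (f : Z ⟶ Z) (x : W.H Z) : gg W f x = W.map f x := rfl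

/-- The generalised eigenspace. -/
noncomputable def genE (W : WeilCohomology.{u, v} ops) (f : Z ⟶ Z) (Q j : ℕ) :
    Submodule W.K (W.H Z) :=
  (gg W f).maxGenEigenspace ((Q : W.K) ^ j) ⊓ W.gr Z (2 * j)

lemma top_zero {x : W.H Z} (hx : x ∈ W.gr Z (2 * Z.dim)) (h : W.tr Z x = 0) : x = 0 := by
  apply W.nondeg
  intro b
  refine gr_induction (W.isInternal Z) (p := fun b => W.tr Z (x * b) = 0) ?_ ?_ b
  · intro i b hb
    by_cases hi : i = 0
    · subst hi
      rw [W.gr_zero] at hb
      obtain ⟨c, rfl⟩ := Submodule.mem_span_singleton.1 hb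
      rw [mul_smul_comm, mul_one, map_smul, h, smul_zero]
    · exact W.tr_eq_zero (W.mul_mem hx hb) (by omega)
  · intro a b ha hb
    rw [mul_add, map_add, ha, hb, add_zero]

lemma exists_tr (f : Z ⟶ Z) (hsurj : Function.Surjective (gg W f)) :
    ∃ a : W.K, a ≠ 0 ∧ ∀ x, W.tr Z (W.map f x) = a * W.tr Z x := by
  by_cases hu : ∃ u ∈ W.gr Z (2 * Z.dim), W.tr Z u ≠ 0
  · obtain ⟨u, hu, hu0⟩ := hu
    have key : ∀ x, W.tr Z (W.map f x) = (W.tr Z (W.map f u) * (W.tr Z u)⁻¹) * W.tr Z x := by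
      intro x
      refine gr_induction (W.isInternal Z) (p := fun x => W.tr Z (W.map f x) =
        (W.tr Z (W.map f u) * (W.tr Z u)⁻¹) * W.tr Z x) ?_ ?_ x
      · intro i x hx
        by_cases hi : i = 2 * Z.dim
        · subst hi
          have h1 : x - (W.tr Z x * (W.tr Z u)⁻¹) • u = 0 := by
            apply top_zero (Submodule.sub_mem _ hx (Submodule.smul_mem _ _ hu))
            rw [map_sub, map_smul, smul_eq_mul, mul_assoc, inv_mul_cancel₀ hu0, mul_one, sub_self]
          have h2 := sub_eq_zero.1 h1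
          calc W.tr Z (W.map f x) = W.tr Z (W.map f ((W.tr Z x * (W.tr Z u)⁻¹) • u)) := by
                rw [← h2]
            _ = _ := by
                rw [map_smul, map_smul, smul_eq_mul]
                ring
        · rw [W.tr_eq_zero (W.map_mem f hx) hi, W.tr_eq_zero hx hi, mul_zero]
      · intro a b ha hb
        rw [map_add, map_add, map_add, ha, hb, mul_add]
    refine ⟨_, ?_, key⟩
    intro h0
    obtain ⟨y, hy⟩ := hsurj u
    have h3 := key y
    rw [h0, zero_mul, ← gg_apply, hy] at h3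
    exact hu0 h3
  · push Not at hu
    have h0 : ∀ x, W.tr Z x = 0 := by
      intro x
      refine gr_induction (W.isInternal Z) (p := fun x => W.tr Z x = 0) ?_ ?_ x
      · intro i x hx
        by_cases hi : i = 2 * Z.dim
        · subst hi
          exact hu x hx
        · exact W.tr_eq_zero hx hi
      · intro a b ha hb
        rw [map_add, ha, hb, add_zero]
    exact ⟨1, one_ne_zero, fun x => by rw [h0, h0, mul_zero]⟩

lemma IsFr.surj {f : Z ⟶ Z} {Q : ℕ} (hf : IsFr Φ f Q) : Function.Surjective (gg W f) := by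
  obtain ⟨_, m, s, hm, hs, h1, _⟩ := hf
  have h2 : Function.Surjective ((gg W f) ^ m) := by
    change Function.Surjective ((W.map f).toLinearMap ^ m)
    rw [h1]
    exact map_iter_surjective Φ s
  obtain ⟨r, rfl⟩ : ∃ r, m = r + 1 := ⟨m - 1, by omega⟩
  intro y
  obtain ⟨x, hx⟩ := h2 y
  refine ⟨((gg W f) ^ r) x, ?_⟩
  rw [← hx, pow_succ', Module.End.mul_apply]

lemma map_span' (f : Z ⟶ Z) {j : ℕ} {x : W.H Z} (hx : x ∈ spanCycles W Z j) :
    gg W f x ∈ spanCycles W Z j := Pool.Agent.Y163.map_span f hx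

lemma map_surj_span {f : Z ⟶ Z} {Q : ℕ} (hf : IsFr Φ f Q) {j : ℕ} {y : W.H Z}
    (hy : y ∈ spanCycles W Z j) : ∃ x ∈ spanCycles W Z j, gg W f x = y := by
  have hinj : Function.Injective (gg W f) := LinearMap.injective_iff_surjective.2 hf.surj
  have h1 : Function.Injective ((gg W f).restrict (p := spanCycles W Z j)
      (q := spanCycles W Z j) fun x hx => map_span' f hx) := by
    intro x x' h
    apply Subtype.ext
    exact hinj (congrArg Subtype.val h)
  obtain ⟨x, hx⟩ := LinearMap.injective_iff_surjective.1 h1 ⟨y, hy⟩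
  exact ⟨x, x.2, congrArg Subtype.val hx⟩

lemma eig_span {f : Z ⟶ Z} {Q : ℕ} (hf : IsFr Φ f Q) (j : ℕ) : ∃ L : ℕ, 0 < L ∧
    ∀ x ∈ spanCycles W Z j, (gg W f ^ L) x = (((Q : W.K) ^ j) ^ L) • x := by
  obtain ⟨_, m, s, hm, hs, h1, h2⟩ := hf
  obtain ⟨t, ht, h3⟩ := exists_span_eig Φ Z j
  refine ⟨m * t, Nat.mul_pos hm ht, fun x hx => ?_⟩
  have h4 := span_eig_mul' Φ (h3 x hx) s
  rw [frob_mul_eq, ← h1, ← pow_mul, Pool.Agent.W534.card_mul_eq, ← h2] at h4
  change (gg W f ^ (m * t)) x = _ at h4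
  rw [h4]
  congr 1
  push_cast
  ring

/-- The averaging operator. -/
noncomputable def avg {K V : Type*} [Field K] [AddCommGroup V] [Module K V] (g : Module.End K V)
    (c : K) (L : ℕ) : Module.End K V :=
  ∑ i ∈ range L, g ^ i * (c • (1 : Module.End K V)) ^ (L - 1 - i)

section Avg

variable {K V : Type*} [Field K] [AddCommGroup V] [Module K V] (g : Module.End K V) (c : K) (L : ℕ)

lemma comm_smul_one : Commute g (c • (1 : Module.End K V)) := (Commute.one_right g).smul_right c

lemma avg_mul : avg g c L * (g - c • 1) = g ^ L - (c ^ L) • 1 := by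
  rw [avg, (comm_smul_one g c).geom_sum₂_mul, _root_.smul_pow, one_pow]

lemma avg_comm : Commute (avg g c L) (g - c • 1) := by
  apply Commute.sum_left
  intro i _
  apply Commute.sub_right
  · exact ((Commute.refl g).pow_left _).mul_left ((comm_smul_one g c).symm.pow_left _)
  · exact ((comm_smul_one g c).pow_left _).mul_left ((Commute.refl _).pow_left _)

lemma avg_apply (x : V) : avg g c L x = ∑ i ∈ range L, (c ^ (L - 1 - i)) • (g ^ i) x := by
  rw [avg, LinearMap.sum_apply]
  refine Finset.sum_congr rfl fun i _ => ?_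
  rw [Module.End.mul_apply, _root_.smul_pow, one_pow, LinearMap.smul_apply, Module.End.one_apply, map_smul]

lemma pow_eig {x : V} (h : g x = c • x) (i : ℕ) : (g ^ i) x = c ^ i • x := by
  induction i with
  | zero => rw [pow_zero, pow_zero, one_smul, Module.End.one_apply]
  | succ i ih => rw [pow_succ', Module.End.mul_apply, ih, map_smul, h, smul_smul, pow_succ]

lemma avg_eig {x : V} (h : g x = c • x) : avg g c L x = (L * c ^ (L - 1)) • x := by
  rw [avg_apply, mul_smul]
  have h1 : ∀ i ∈ range L, (c ^ (L - 1 - i)) • (g ^ i) x = c ^ (L - 1) • x := by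
    intro i hi
    rw [Finset.mem_range] at hi
    rw [pow_eig g c h, smul_smul, ← pow_add]
    congr 2
    omega
  rw [Finset.sum_congr rfl h1, Finset.sum_const, Finset.card_range, ← Nat.cast_smul_eq_nsmul K]

end Avg

lemma pair_radical {f : Z ⟶ Z} {Q : ℕ} (hf : IsFr Φ f Q) {l : ℕ}
    {x : W.H Z} (h : ∀ y ∈ spanCycles W Z l, W.tr Z (x * y) = 0) :
    ∀ y ∈ spanCycles W Z l, W.tr Z (gg W f x * y) = 0 := by
  obtain ⟨a, _, ha⟩ := exists_tr (W := W) f hf.surj
  intro y hy
  obtain ⟨y', hy', rfl⟩ := map_surj_span hf hy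
  rw [gg_apply, gg_apply, ← map_mul, ha, h y' hy', mul_zero]

lemma tr_span_zero {l : ℕ} {x : W.H Z}
    (h : ∀ w, Z.IsCyc l w → W.tr Z (x * W.cl Z w) = 0) :
    ∀ y ∈ spanCycles W Z l, W.tr Z (x * y) = 0 := by
  intro y hy
  induction hy using Submodule.span_induction with
  | mem y hy =>
    obtain ⟨r, hr, w, hw, rfl⟩ := hy
    obtain rfl : r = l := by exact_mod_cast hr
    exact h w hw
  | zero => rw [mul_zero, map_zero]
  | add a b _ _ ha hb => rw [mul_add, map_add, ha, hb, add_zero]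
  | smul a b _ hb => rw [mul_smul_comm, map_smul, hb, smul_zero]

/-- The averages of the classes of rational cycles. -/
lemma tr_avg {f : Z ⟶ Z} {Q : ℕ} (hf : IsFr Φ f Q) {j l : ℕ} (hjl : j + l = Z.dim) {z : Z.Cycles}
    (hz : IsRationalCycle ops f Q j z) (L : ℕ) {y : W.H Z} (hy : y ∈ spanCycles W Z l) :
    W.tr Z (avg (gg W f) ((Q : W.K) ^ j) L (W.cl Z z) * y) =
      (L * ((Q : W.K) ^ j) ^ (L - 1)) * W.tr Z (W.cl Z z * y) := by
  obtain rfl : l = Z.dim - j := by omega
  set c : W.K := (Q : W.K) ^ j with hc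
  have h1 : ∀ y ∈ spanCycles W Z ((Z.dim - j : ℕ) : ℤ),
      W.tr Z ((gg W f (W.cl Z z) - c • W.cl Z z) * y) = 0 := by
    apply tr_span_zero
    intro w hw
    rw [sub_mul, map_sub, smul_mul_assoc, map_smul, gg_apply, ← W.cl_pull,
      tr_mul_cl' (ops.pull_mem f hz.1) hw hjl, tr_mul_cl' hz.1 hw hjl, hz.2 w hw, smul_eq_mul, hc]
    push_cast
    ring
  have h2 : ∀ i : ℕ, ∀ y ∈ spanCycles W Z ((Z.dim - j : ℕ) : ℤ),
      W.tr Z (((gg W f ^ i) (W.cl Z z) - c ^ i • W.cl Z z) * y) = 0 := by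
    intro i
    induction i with
    | zero =>
      intro y _
      rw [pow_zero, pow_zero, one_smul, Module.End.one_apply, sub_self, zero_mul, map_zero]
    | succ i ih =>
      intro y hy
      have h3 := pair_radical hf ih y hy
      have h4 := h1 y hy
      have e : (gg W f ^ (i + 1)) (W.cl Z z) - c ^ (i + 1) • W.cl Z z =
          gg W f ((gg W f ^ i) (W.cl Z z) - c ^ i • W.cl Z z) +
            c ^ i • (gg W f (W.cl Z z) - c • W.cl Z z) := by
        rw [pow_succ', Module.End.mul_apply, map_sub, map_smul, smul_sub, smul_smul, pow_succ]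
        abel
      rw [e, add_mul, map_add, h3, smul_mul_assoc, map_smul, h4, smul_zero, add_zero]
  have h3 : ∀ i : ℕ, W.tr Z ((gg W f ^ i) (W.cl Z z) * y) = c ^ i * W.tr Z (W.cl Z z * y) := by
    intro i
    have := h2 i y hy
    rw [sub_mul, map_sub, smul_mul_assoc, map_smul, smul_eq_mul, sub_eq_zero] at this
    exact this
  rw [avg_apply, Finset.sum_mul, map_sum]
  have h4 : ∀ i ∈ range L, W.tr Z ((c ^ (L - 1 - i)) • (gg W f ^ i) (W.cl Z z) * y) =
      c ^ (L - 1) * W.tr Z (W.cl Z z * y) := by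
    intro i hi
    rw [Finset.mem_range] at hi
    rw [smul_mul_assoc, map_smul, smul_eq_mul, h3, ← mul_assoc, ← pow_add]
    congr 2
    omega
  rw [Finset.sum_congr rfl h4, Finset.sum_const, Finset.card_range, nsmul_eq_mul]
  ring

lemma avg_span {f : Z ⟶ Z} (c : W.K) (L : ℕ) {j : ℕ} {x : W.H Z}
    (hx : x ∈ spanCycles W Z j) : avg (gg W f) c L x ∈ spanCycles W Z j := by
  rw [avg_apply]
  have h1 : ∀ i : ℕ, (gg W f ^ i) x ∈ spanCycles W Z j := by
    intro i
    induction i with
    | zero => exact hx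
    | succ i ih =>
      rw [pow_succ', Module.End.mul_apply]
      exact map_span' f ih
  exact Submodule.sum_mem _ fun i _ => Submodule.smul_mem _ _ (h1 i)

lemma avg_mem_genE {f : Z ⟶ Z} {Q j L : ℕ}
    (hL : ∀ x ∈ spanCycles W Z j, (gg W f ^ L) x = (((Q : W.K) ^ j) ^ L) • x) {x : W.H Z}
    (hx : x ∈ spanCycles W Z j) :
    avg (gg W f) ((Q : W.K) ^ j) L x ∈ genE W f Q j := by
  refine ⟨(Module.End.mem_maxGenEigenspace _ _ _).2 ⟨1, ?_⟩, span_gr (avg_span _ _ hx)⟩
  rw [pow_one, ← Module.End.mul_apply, ← (avg_comm _ _ _).eq, avg_mul, LinearMap.sub_apply,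
    LinearMap.smul_apply, Module.End.one_apply, hL x hx, sub_self]

lemma qc_ne {f : Z ⟶ Z} {Q j L : ℕ} (hf : IsFr Φ f Q) (hL : 0 < L) :
    (L * ((Q : W.K) ^ j) ^ (L - 1)) ≠ 0 := by
  have := hf.pos
  refine mul_ne_zero (Nat.cast_ne_zero.2 hL.ne') (pow_ne_zero _ (pow_ne_zero _
    (Nat.cast_ne_zero.2 (by omega))))

/-- **The rank is at most the dimension of the algebraic part.** -/
theorem rank_le {f : Z ⟶ Z} {Q : ℕ} (hf : IsFr Φ f Q) {j : ℕ} (hj : j ≤ Z.dim) :
    rationalRank ops f Q j ≤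
      Module.finrank W.K (genE W f Q j ⊓ spanCycles W Z j : Submodule W.K (W.H Z)) := by
  obtain ⟨L, hL, h1⟩ := eig_span hf j
  have hq := qc_ne (j := j) hf hL
  refine rat_le (K := W.K) (V := (genE W f Q j ⊓ spanCycles W Z j : Submodule W.K (W.H Z)))
    (fun z : {z : Z.Cycles // IsRationalCycle ops f Q j z} => interNumbers ops Z j ⟨z.1, z.2.1⟩)
    (fun z => ⟨(L * ((Q : W.K) ^ j) ^ (L - 1))⁻¹ • avg (gg W f) ((Q : W.K) ^ j) L (W.cl Z z.1),
      Submodule.smul_mem _ _ ⟨avg_mem_genE h1 (mem_span_cl z.2.1), avg_span _ _ (mem_span_cl z.2.1)⟩⟩)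
    (fun w => W.tr Z ∘ₗ LinearMap.mulRight W.K (W.cl Z w.1) ∘ₗ Submodule.subtype _) ?_
  intro z w
  change W.tr Z (((L * ((Q : W.K) ^ j) ^ (L - 1))⁻¹ •
    avg (gg W f) ((Q : W.K) ^ j) L (W.cl Z z.1)) * W.cl Z w.1) = _
  rw [smul_mul_assoc, map_smul, tr_avg hf (l := Z.dim - j) (by omega) z.2 L (mem_span_cl w.2),
    smul_eq_mul, ← mul_assoc, inv_mul_cancel₀ hq, one_mul]
  exact tr_mul_cl' z.2.1 w.2 (by omega)

/-- Algebraic generalised eigenvectors are eigenvectors. -/
lemma eig_of_gen {f : Z ⟶ Z} {Q : ℕ} (hf : IsFr Φ f Q) {j : ℕ} {x : W.H Z}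
    (hx : x ∈ genE W f Q j) (hxs : x ∈ spanCycles W Z j) :
    gg W f x = ((Q : W.K) ^ j) • x := by
  obtain ⟨L, hL, h1⟩ := eig_span hf j
  have hq := qc_ne (j := j) hf hL
  obtain ⟨n, hn⟩ := (Module.End.mem_maxGenEigenspace _ _ _).1 hx.1
  set A := gg W f - ((Q : W.K) ^ j) • (1 : Module.End W.K (W.H Z)) with hA
  have hAs : ∀ y ∈ spanCycles W Z j, A y ∈ spanCycles W Z j := by
    intro y hy
    rw [hA, LinearMap.sub_apply, LinearMap.smul_apply, Module.End.one_apply]
    exact Submodule.sub_mem _ (map_span' f hy) (Submodule.smul_mem _ _ hy)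
  have h2 := ker_of_sq' hAs (fun y hy h0 => ?_) hxs hn
  · rw [hA, LinearMap.sub_apply, LinearMap.smul_apply, Module.End.one_apply, sub_eq_zero] at h2
    exact h2
  · have h3 : gg W f (A y) = ((Q : W.K) ^ j) • A y := by
      have := h0
      rw [hA, LinearMap.sub_apply, LinearMap.smul_apply, Module.End.one_apply, sub_eq_zero] at this
      exact this
    have h4 := avg_eig _ _ L h3
    rw [← Module.End.mul_apply, hA, avg_mul, LinearMap.sub_apply, LinearMap.smul_apply,
      Module.End.one_apply, h1 y hy, sub_self] at h4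
    exact (smul_eq_zero.1 h4.symm).resolve_left hq

/-- The averaged cycle. -/
lemma exists_avg_cycle (f : Z ⟶ Z) (c : ℚ) (L : ℕ) {j : ℕ} {z : Z.Cycles} (hz : Z.IsCyc j z) :
    ∃ z', Z.IsCyc j z' ∧ W.cl Z z' = avg (gg W f) (c : W.K) L (W.cl Z z) := by
  have h1 : ∀ i : ℕ, ∃ z', Z.IsCyc j z' ∧ W.cl Z z' = (gg W f ^ i) (W.cl Z z) := by
    intro i
    induction i with
    | zero => exact ⟨z, hz, rfl⟩
    | succ i ih =>
      obtain ⟨z', h1, h2⟩ := ih
      refine ⟨ops.pull f z', ops.pull_mem f h1, ?_⟩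
      rw [W.cl_pull, h2, pow_succ', Module.End.mul_apply, gg_apply]
  choose zi hzi1 hzi2 using h1
  refine ⟨∑ i ∈ range L, (c ^ (L - 1 - i)) • zi i, ?_, ?_⟩
  · have h2 : ∀ s : Finset ℕ, Z.IsCyc j (∑ i ∈ s, (c ^ (L - 1 - i)) • zi i) := by
      classical
      intro s
      induction s using Finset.induction with
      | empty => exact SmVar.IsCyc.zero _ _
      | insert a s ha ih =>
        rw [Finset.sum_insert ha]
        exact SmVar.IsCyc.add (SmVar.IsCyc.smul _ (hzi1 a)) ih
    exact h2 _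
  · rw [map_sum, avg_apply]
    refine Finset.sum_congr rfl fun i _ => ?_
    rw [W.cl_smul, hzi2]
    push_cast
    rfl

end Pool.Agent.H50.WR
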