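import Pool.Agent.H50.WR.A

/-!
# The order of the zeta function of a model over one finite field
-/

set_option linter.unusedSectionVars false

open CategoryTheory AlgebraicGeometry Finset Polynomial

universe u v

namespace Pool.Agent.H50.WR

open Pool.Agent.H914 Pool.Agent.H447 Pool.Agent.W534 VarClass Obj WeilCohomology

variable {k : Type u} [Field k] {𝒱 : VarClass k} {ops : CycleOps 𝒱}
  {W : WeilCohomology.{u, v} ops} {Z : 𝒱.Obj} {p : ℕ} {Φ : FrobSystem W p}

/-- The endomorphism on `H^i(Z)`. -/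
noncomputable def fOn (W : WeilCohomology.{u, v} ops) (f : Z ⟶ Z) (i : ℕ) :
    Module.End W.K (W.gr Z i) :=
  (W.map f).toLinearMap.restrict (p := W.gr Z i) (q := W.gr Z i) (fun _ hx => W.map_mem _ hx)

lemma coe_fOn_pow (f : Z ⟶ Z) (i n : ℕ) (v : W.gr Z i) :
    (((fOn W f i ^ n) v : W.gr Z i) : W.H Z) = (gg W f ^ n) (v : W.H Z) := by
  induction n with
  | zero => rfl
  | succ n ih =>
    rw [pow_succ', pow_succ', Module.End.mul_apply, Module.End.mul_apply, ← ih]
    rfl

lemma norm_root [IsAlgClosed W.K] {σ : W.K →+* ℂ} (hRH : RiemannHyp Φ σ Z) {f : Z ⟶ Z} {Q : ℕ}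
    (hf : IsFr Φ f Q) (i : ℕ) (μ : ℂ) (hμ : ((fOn W f i).charpoly.map σ).IsRoot μ) :
    ‖μ‖ ^ 2 = (Q : ℝ) ^ i := by
  obtain ⟨_, m, s, hm, hs, h1, h2⟩ := hf
  have hmon := LinearMap.charpoly_monic (fOn W f i)
  obtain ⟨a, rfl⟩ := (IsAlgClosed.splits (fOn W f i).charpoly).mem_range_of_isRoot
    hmon.ne_zero hμ
  have ha : (fOn W f i).charpoly.IsRoot a := by
    rw [IsRoot.def, Polynomial.eval_map, Polynomial.eval₂_at_apply] at hμ
    exact σ.injective (hμ.trans (map_zero σ).symm)
  obtain ⟨v, hv⟩ := ((Module.End.hasEigenvalue_iff_isRoot_charpoly _ _).2 ha).exists_hasEigenvector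
  have h3 : frobOn Φ Z s i v = a ^ m • v := by
    apply Subtype.ext
    have h4 : (((fOn W f i ^ m) v : W.gr Z i) : W.H Z) = ((a ^ m • v : W.gr Z i) : W.H Z) := by
      rw [pow_eig _ a hv.apply_eq_smul]
    rw [← h4, coe_fOn_pow]
    change frob Φ Z s v = _
    rw [← h1]
    rfl
  have h5 : (frobOn Φ Z s i).charpoly.IsRoot (a ^ m) := by
    rw [← Module.End.hasEigenvalue_iff_isRoot_charpoly]
    exact Module.End.hasEigenvalue_of_hasEigenvector ⟨Module.End.mem_eigenspace_iff.2 h3, hv.2⟩
  have h6 := hRH s hs i (σ (a ^ m)) (by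
    rw [frobPoly_eq, IsRoot.def, Polynomial.eval_map, Polynomial.eval₂_at_apply, h5, map_zero])
  rw [map_pow, norm_pow, ← h2] at h6
  have h7 : (‖σ a‖ ^ 2) ^ m = ((Q : ℝ) ^ i) ^ m := by
    push_cast at h6
    rw [pow_right_comm, h6, pow_right_comm]
  exact (pow_left_inj₀ (by positivity) (by positivity) hm.ne').1 h7

/-- **The order of the zeta function.** -/
theorem order_zetaOf [IsAlgClosed W.K] {σ : W.K →+* ℂ} (hRH : RiemannHyp Φ σ Z) {f : Z ⟶ Z}
    {Q : ℕ} (hf : IsFr Φ f Q) {j : ℕ} (hj : j ≤ Z.dim) :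
    meromorphicOrderAt (zetaOf W σ f Q) (j : ℂ) =
      ((-(Module.finrank W.K (genE W f Q j) : ℤ) : ℤ) : WithTop ℤ) := by
  classical
  have hone : 1 < Q := hf.pos
  have hq : (1 : ℝ) < (Q : ℝ) := by exact_mod_cast hone
  have hmon : ∀ i, ((fOn W f i).charpoly.map σ).Monic := fun i =>
    (LinearMap.charpoly_monic _).map σ
  have hpoly : ∀ i, (charpolyOn (W.map f).toLinearMap (W.gr Z i)).map σ =
      (fOn W f i).charpoly.map σ := by
    intro i
    have h : ∀ x ∈ W.gr Z i, (W.map f).toLinearMap x ∈ W.gr Z i :=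
      fun _ hx => W.map_mem _ hx
    rw [charpolyOn, dif_pos h]
    rfl
  have hzero : ∀ i, i ≠ 2 * j →
      ((fOn W f i).charpoly.map σ).roots.count ((Q : ℂ) ^ j) = 0 := by
    intro i hi
    rw [Multiset.count_eq_zero]
    intro h
    rw [mem_roots (hmon i).ne_zero] at h
    have h1 := norm_root hRH hf i _ h
    rw [norm_pow, Complex.norm_natCast, ← pow_mul] at h1
    have h2 : j * 2 = i := by
      have h3 : Q ^ (j * 2) = Q ^ i := by exact_mod_cast h1
      exact Nat.pow_right_injective hone h3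
    omega
  have hmain : ((fOn W f (2 * j)).charpoly.map σ).roots.count ((Q : ℂ) ^ j) =
      Module.finrank W.K (genE W f Q j) := by
    have e1 : ((Q : ℂ) ^ j) = σ ((Q : W.K) ^ j) := by
      rw [map_pow, map_natCast]
    rw [count_roots, e1, ← eq_rootMultiplicity_map σ.injective,
      ← LinearMap.finrank_maxGenEigenspace_eq]
    have h1 := Submodule.inf_genEigenspace (W.map f).toLinearMap
      (W.gr Z (2 * j)) (k := ⊤) (μ := (Q : W.K) ^ j) (fun _ hx => W.map_mem _ hx)
    have h2 : genE W f Q j = (Module.End.genEigenspace (fOn W f (2 * j))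
        ((Q : W.K) ^ j) ⊤).map (W.gr Z (2 * j)).subtype := by
      rw [genE, inf_comm]
      exact h1
    rw [h2]
    exact LinearEquiv.finrank_eq (Submodule.equivMapOfInjective _
      (Submodule.subtype_injective _) _)
  have hfrob : ∀ i, MeromorphicAt (fun z : ℂ =>
      ((charpolyOn (W.map f).toLinearMap (W.gr Z i)).map σ).reverse.eval ((Q : ℂ) ^ (-z))) (j : ℂ) ∧
      meromorphicOrderAt (fun z : ℂ =>
      ((charpolyOn (W.map f).toLinearMap (W.gr Z i)).map σ).reverse.eval ((Q : ℂ) ^ (-z))) (j : ℂ) =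
      (((((fOn W f i).charpoly.map σ).roots.count ((Q : ℂ) ^ j) : ℕ) : ℤ) : WithTop ℤ) := by
    intro i
    have h1 := order_prod (Q : ℝ) hq j ((fOn W f i).charpoly.map σ).roots
    have h2 : ((((fOn W f i).charpoly.map σ).roots).map fun α => X - C α).prod =
        (fOn W f i).charpoly.map σ := by
      rw [← (IsAlgClosed.splits _).eq_prod_roots_of_monic (hmon i)]
    rw [h2] at h1
    simpa [hpoly i] using h1
  have hdet : ∀ i : ℕ, MeromorphicAt (fun z : ℂ =>
      (((charpolyOn (W.map f).toLinearMap (W.gr Z i)).map σ).reverse.eval ((Q : ℂ) ^ (-z))) ^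
        ((-1 : ℤ) ^ (i + 1))) (j : ℂ) ∧
      meromorphicOrderAt (fun z : ℂ =>
      (((charpolyOn (W.map f).toLinearMap (W.gr Z i)).map σ).reverse.eval ((Q : ℂ) ^ (-z))) ^
        ((-1 : ℤ) ^ (i + 1))) (j : ℂ) =
      (((-1 : ℤ) ^ (i + 1) * (((fOn W f i).charpoly.map σ).roots.count
        ((Q : ℂ) ^ j) : ℕ) : ℤ) : WithTop ℤ) := by
    intro i
    obtain ⟨h1, h2⟩ := hfrob i
    refine ⟨h1.fun_zpow _, ?_⟩
    rw [fun_meromorphicOrderAt_zpow h1, h2]
    rfl
  change meromorphicOrderAt (fun z : ℂ => ∏ i ∈ Finset.range (2 * Z.dim + 1),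
    (((charpolyOn (W.map f).toLinearMap (W.gr Z i)).map σ).reverse.eval ((Q : ℂ) ^ (-z))) ^
        ((-1 : ℤ) ^ (i + 1))) (j : ℂ) = _
  rw [meromorphicOrderAt_fun_prod (fun i _ => (hdet i).1),
    Finset.sum_congr rfl (fun i _ => (hdet i).2), ← WithTop.coe_sum]
  congr 1
  have hn : 2 * j ∈ Finset.range (2 * Z.dim + 1) := by
    rw [Finset.mem_range]
    omega
  rw [Finset.sum_eq_single_of_mem (2 * j) hn, hmain]
  · rw [pow_succ, pow_mul]
    simp
  · intro i _ hi
    rw [hzero i hi]
    simp

/-- The formula over one finite field implies that the generalised eigenvectors are algebraic. -/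
theorem alg_of_formula [IsAlgClosed W.K] {σ : W.K →+* ℂ} (hRH : RiemannHyp Φ σ Z) {f : Z ⟶ Z}
    {Q : ℕ} (hf : IsFr Φ f Q) {j : ℕ} (hj : j ≤ Z.dim) (h : FormulaOver W σ f Q j) :
    genE W f Q j ≤ spanCycles W Z j := by
  rw [FormulaOver, order_zetaOf hRH hf hj] at h
  have h1 : Module.finrank W.K (genE W f Q j) = rationalRank ops f Q j := by
    have h2 := WithTop.coe_injective h
    omega
  have h2 := rank_le hf hj (j := j)
  rw [← h1] at h2
  have h3 := Submodule.eq_of_le_of_finrank_le (inf_le_left :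
    (genE W f Q j ⊓ spanCycles W Z j : Submodule W.K (W.H Z)) ≤ genE W f Q j) h2
  rw [← h3]
  exact inf_le_right

/-- The Tate conjecture over all finite fields implies the formula over one finite field. -/
theorem formula_of_tate [IsAlgClosed W.K] [hp : Fact p.Prime] {σ : W.K →+* ℂ}
    (hRH : RiemannHyp Φ σ Z) {f : Z ⟶ Z}
    {Q : ℕ} (hf : IsFr Φ f Q) (h : ∀ j, SemisimpleTateIn Φ Z j) {j : ℕ} (hj : j ≤ Z.dim) :
    FormulaOver W σ f Q j := by
  have hgen : genE W f Q j ≤ spanCycles W Z j := by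
    obtain ⟨_, m, s, hm, hs, h1, h2⟩ := id hf
    intro x hx
    refine h j s hs ⟨?_, hx.2⟩
    have h3 := gen_mono _ _ m hx.1
    change x ∈ (frob Φ Z s).maxGenEigenspace _
    rw [← h1, ← h2, Nat.cast_pow, pow_right_comm]
    exact h3
  have hinj : Function.Injective (pair W Z j (Z.dim - j)) :=
    (semisimple_of_pole hp.out.one_lt hRH (j := j) (l := Z.dim - j) (by omega)
      (Pool.Agent.R940.pole_of_semisimple hRH h hj)).2
  rw [FormulaOver, order_zetaOf hRH hf hj]
  have key : rationalRank ops f Q j = Module.finrank W.K (genE W f Q j) := by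
    apply le_antisymm
    · refine (rank_le hf hj).trans (Submodule.finrank_mono inf_le_left)
    · obtain ⟨L, hL, h1⟩ := eig_span hf j
      have hq := qc_ne (j := j) hf hL
      refine rat_ge (K := W.K) (V := genE W f Q j)
        (fun z : {z : Z.Cycles // IsRationalCycle ops f Q j z} =>
          interNumbers ops Z j ⟨z.1, z.2.1⟩)
        (fun z => ⟨(L * ((Q : W.K) ^ j) ^ (L - 1))⁻¹ •
            avg (gg W f) ((Q : W.K) ^ j) L (W.cl Z z.1),
          Submodule.smul_mem _ _ (avg_mem_genE h1 (mem_span_cl z.2.1))⟩)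
        (fun w => W.tr Z ∘ₗ LinearMap.mulRight W.K (W.cl Z w.1) ∘ₗ Submodule.subtype _) ?_ ?_ ?_
      · intro z w
        change W.tr Z (((L * ((Q : W.K) ^ j) ^ (L - 1))⁻¹ •
          avg (gg W f) ((Q : W.K) ^ j) L (W.cl Z z.1)) * W.cl Z w.1) = _
        rw [smul_mul_assoc, map_smul, tr_avg hf (l := Z.dim - j) (by omega) z.2 L
          (mem_span_cl w.2), smul_eq_mul, ← mul_assoc, inv_mul_cancel₀ hq, one_mul]
        exact tr_mul_cl' z.2.1 w.2 (by omega)
      · rintro ⟨v, hv⟩ h0
        apply Subtype.ext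
        have h2 : (⟨v, hgen hv⟩ : spanCycles W Z j) = 0 := by
          apply hinj
          rw [map_zero]
          apply dual_ext
          intro w
          exact h0 w
        have h3 : v = 0 := congrArg (fun x : spanCycles W Z j => (x : W.H Z)) h2
        exact h3
      · rintro ⟨v, hv⟩
        have hvs := hgen hv
        have hev := eig_of_gen hf hv hvs
        -- the averages span
        have h2 : ∀ y ∈ spanCycles W Z j, ∀ hy : avg (gg W f) ((Q : W.K) ^ j) L y ∈ genE W f Q j,
            (⟨_, hy⟩ : genE W f Q j) ∈ Submodule.span W.K (Set.range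
              fun z : {z : Z.Cycles // IsRationalCycle ops f Q j z} =>
              (⟨(L * ((Q : W.K) ^ j) ^ (L - 1))⁻¹ •
                avg (gg W f) ((Q : W.K) ^ j) L (W.cl Z z.1),
              Submodule.smul_mem _ _ (avg_mem_genE h1 (mem_span_cl z.2.1))⟩ : genE W f Q j)) := by
          intro y hy
          induction hy using Submodule.span_induction with
          | mem y hy =>
            intro hy'
            obtain ⟨r, hr, z, hz, rfl⟩ := hy
            obtain rfl : r = j := by exact_mod_cast hr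
            obtain ⟨z', hz', hcl⟩ := exists_avg_cycle (W := W) (ops := ops) f ((Q : ℚ) ^ r) L hz
            push_cast at hcl
            have hgz : gg W f (W.cl Z z') = ((Q : W.K) ^ r) • W.cl Z z' := by
              apply eig_of_gen hf
              · rw [hcl]; exact hy'
              · exact mem_span_cl hz'
            have hrat : IsRationalCycle ops f Q r z' := by
              refine ⟨hz', fun w hw => ?_⟩
              have e1 : ((Z.V.degCycle (ops.mul (ops.pull f z') w) : ℚ) : W.K) =
                  (((Q : ℚ) ^ r * Z.V.degCycle (ops.mul z' w) : ℚ) : W.K) := by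
                rw [← tr_mul_cl' (ops.pull_mem f hz') hw (by omega), W.cl_pull, ← gg_apply, hgz,
                  smul_mul_assoc, map_smul, tr_mul_cl' hz' hw (by omega)]
                push_cast
                rfl
              exact_mod_cast e1
            refine Submodule.subset_span ⟨⟨z', hrat⟩, ?_⟩
            apply Subtype.ext
            change (L * ((Q : W.K) ^ r) ^ (L - 1))⁻¹ •
              avg (gg W f) ((Q : W.K) ^ r) L (W.cl Z z') = _
            rw [avg_eig _ _ _ hgz, smul_smul, inv_mul_cancel₀ hq, one_smul, hcl]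
          | zero =>
            intro hy'
            have e : (⟨_, hy'⟩ : genE W f Q j) = 0 := Subtype.ext (map_zero _)
            rw [e]
            exact Submodule.zero_mem _
          | add a b ha hb iha ihb =>
            intro hy'
            have e : (⟨_, hy'⟩ : genE W f Q j) = ⟨_, avg_mem_genE h1 ha⟩ + ⟨_, avg_mem_genE h1 hb⟩ :=
              Subtype.ext (map_add _ _ _)
            rw [e]
            exact Submodule.add_mem _ (iha _) (ihb _)
          | smul t a ha iha =>
            intro hy'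
            have e : (⟨_, hy'⟩ : genE W f Q j) = t • ⟨_, avg_mem_genE h1 ha⟩ :=
              Subtype.ext (map_smul _ _ _)
            rw [e]
            exact Submodule.smul_mem _ _ (iha _)
        have h3 := Submodule.smul_mem _ (L * ((Q : W.K) ^ j) ^ (L - 1))⁻¹
          (h2 v hvs (avg_mem_genE h1 hvs))
        have e : (L * ((Q : W.K) ^ j) ^ (L - 1))⁻¹ • (⟨_, avg_mem_genE h1 hvs⟩ : genE W f Q j) =
            ⟨v, hv⟩ := by
          apply Subtype.ext
          change (L * ((Q : W.K) ^ j) ^ (L - 1))⁻¹ • avg (gg W f) ((Q : W.K) ^ j) L v = v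
          rw [avg_eig _ _ _ hev, smul_smul, inv_mul_cancel₀ hq, one_smul]
        rw [e] at h3
        exact h3
  rw [key]

end Pool.Agent.H50.WR
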