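import Pool.Agent.H50.WR.A2
import Pool.Graph.R_pool_sql_team_seeded_b0a926ef.R936.SymG

/-!
# The Frobenius endomorphisms of Weil restrictions
-/

set_option linter.unusedSectionVars false

open CategoryTheory AlgebraicGeometry Finset Polynomial

universe u v

namespace Pool.Agent.H50.WR

open Pool.Agent.H914 Pool.Agent.W534 VarClass Obj WeilCohomology Pool.Agent.H281R3.HT
open Pool.Agent.Y163 (pw pr tup perm HBasis mon mon_eq tup_pr perm_pr perm_mul pw_hom_ext ofFn_perm
  prod_perm genU mem_genU exists_monBasis exists_hbasis)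
open Pool.Agent.Y133.Half (algSys Sys PH xp corr_xp spanCycles_of_algSpan)
open Pool.Agent.Y133.Half.Sys (Op mem_Op)
open Pool.Agent.R940 (IsEig frob_pr gen_semi gen_bilin ofFn_gr)
open Pool.Agent.R936 (monv monv_eq monv_zero tens tens_monv tens_mem op_apply lw TL AllWords
  span_le_algSpan lw_cons lw_nil lw_append lw_perm IsUnitIdx)
open Pool.Agent.W536.RR (algSpan_map algSpan_mul one_mem_algSpan)

variable {k : Type u} [Field k] {𝒱 : VarClass k} {ops : CycleOps 𝒱}
  {W : WeilCohomology.{u, v} ops} {X Y Z : 𝒱.Obj} {p : ℕ} {Φ : FrobSystem W p}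

lemma weil_comp (n s : ℕ) (i : Fin (n + 1)) :
    weilFrob Φ X n s ≫ pr X n i = pr X n (i + 1) ≫ Pool.Agent.W534.iter (Φ.Fr X) s :=
  tup_pr _ _ _

lemma weil_pr (n s : ℕ) (i : Fin (n + 1)) (y : W.H X) :
    gg W (weilFrob Φ X n s) (W.map (pr X n i) y) = W.map (pr X n (i + 1)) (frob Φ X s y) := by
  rw [gg_apply, ← W.map_comp, weil_comp, W.map_comp]
  rfl

lemma weil_pow_pr (n s r : ℕ) (i : Fin (n + 1)) (y : W.H X) :
    (gg W (weilFrob Φ X n s) ^ r) (W.map (pr X n i) y) =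
      W.map (pr X n (i + r • (1 : Fin (n + 1)))) ((frob Φ X s ^ r) y) := by
  induction r with
  | zero => rw [pow_zero, pow_zero, zero_nsmul, add_zero]; rfl
  | succ r ih =>
    rw [pow_succ', Module.End.mul_apply, ih, weil_pr, pow_succ', Module.End.mul_apply,
      succ_nsmul, add_assoc]

/-- The iterate of a pull-back. -/
lemma gg_pow (f : Z ⟶ Z) (r : ℕ) :
    gg W f ^ r = (W.map (Pool.Agent.W534.iter f r)).toLinearMap := by
  apply LinearMap.ext
  intro x
  rw [Module.End.pow_apply]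
  exact (Pool.Agent.W534.map_iter f r x).symm

/-- Two pull-backs which agree on the pull-backs under the projections agree. -/
lemma map_ext_pr {n : ℕ} {a b : Z ⟶ pw X n}
    (h : ∀ i y, W.map a (W.map (pr X n i) y) = W.map b (W.map (pr X n i) y)) (x : W.H (pw X n)) :
    W.map a x = W.map b x := by
  obtain ⟨ι, _, ⟨B⟩⟩ := exists_hbasis W X
  obtain ⟨bs, hbs⟩ := exists_monBasis B n
  have h1 : (W.map a).toLinearMap = (W.map b).toLinearMap := by
    apply bs.ext
    intro I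
    rw [hbs, mon_eq, AlgHom.toLinearMap_apply, AlgHom.toLinearMap_apply, map_list_prod,
      map_list_prod, List.map_ofFn, List.map_ofFn]
    congr 2
    funext i
    exact h i _
  exact congrArg (fun F => F x) h1

theorem isFr_weil (hp : 1 < p) (X : 𝒱.Obj) (n : ℕ) {s : ℕ} (hs : 0 < s) :
    IsFr Φ (weilFrob Φ X n s) (Pool.Agent.W534.card Φ X s) := by
  obtain ⟨S, S', hS, hS', hSS, h⟩ := frob_pr Φ X n
  refine ⟨Nat.one_lt_pow (Nat.mul_pos (Φ.e_pos X) hs).ne' hp,
    (n + 1) * S', S * (s * (n + 1)), by positivity, by positivity, ?_, ?_⟩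
  · change gg W (weilFrob Φ X n s) ^ ((n + 1) * S') = _
    rw [gg_pow]
    apply LinearMap.ext
    intro x
    refine map_ext_pr (fun i y => ?_) x
    have h1 : W.map (Pool.Agent.W534.iter (weilFrob Φ X n s) ((n + 1) * S'))
        (W.map (pr X n i) y) = (gg W (weilFrob Φ X n s) ^ ((n + 1) * S')) (W.map (pr X n i) y) := by
      rw [gg_pow]; rfl
    have h2 : ((n + 1) * S') • (1 : Fin (n + 1)) = 0 := by
      have h3 := card_nsmul_eq_zero (x := (1 : Fin (n + 1)))
      rw [Fintype.card_fin] at h3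
      rw [mul_comm, mul_nsmul', h3, nsmul_zero]
    rw [h1, weil_pow_pr, h2, add_zero, ← frob_mul_eq]
    have h3 := h i (s * (n + 1)) y
    rw [show S' * (s * (n + 1)) = s * ((n + 1) * S') by ring] at h3
    exact h3.symm
  · rw [Pool.Agent.W534.card, Pool.Agent.W534.card, ← pow_mul]
    congr 1
    calc Φ.e X * s * ((n + 1) * S') = (S' * Φ.e X) * (s * (n + 1)) := by ring
      _ = Φ.e (pw X n) * (S * (s * (n + 1))) := by rw [← hSS]; ring

theorem isFr_frob (hp : 1 < p) (Z : 𝒱.Obj) {s : ℕ} (hs : 0 < s) :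
    IsFr Φ (Pool.Agent.W534.iter (Φ.Fr Z) s) (Pool.Agent.W534.card Φ Z s) :=
  ⟨Nat.one_lt_pow (Nat.mul_pos (Φ.e_pos Z) hs).ne' hp, 1, s, one_pos, hs, by rw [pow_one]; rfl,
    pow_one _⟩

/-! ### The factors of the Frobenius endomorphism -/

/-- The Frobenius endomorphism on each factor. -/
noncomputable def dFrob (Φ : FrobSystem W p) (X : 𝒱.Obj) (n s : ℕ) : pw X n ⟶ pw X n :=
  tup n fun i => pr X n i ≫ Pool.Agent.W534.iter (Φ.Fr X) s

/-- The rotation. -/
noncomputable def sh (X : 𝒱.Obj) (n : ℕ) (a : Fin (n + 1)) : pw X n ⟶ pw X n :=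
  perm X n (Equiv.addRight a)

lemma sh_pr (n : ℕ) (a i : Fin (n + 1)) : sh X n a ≫ pr X n i = pr X n (i + a) := perm_pr _ _ _

lemma sh_zero (n : ℕ) : sh X n 0 = 𝟙 _ := by
  apply pw_hom_ext
  intro i
  rw [sh_pr, add_zero, Category.id_comp]

lemma sh_comp (n : ℕ) (a b : Fin (n + 1)) : sh X n a ≫ sh X n b = sh X n (b + a) := by
  apply pw_hom_ext
  intro i
  rw [Category.assoc, sh_pr, sh_pr, sh_pr, add_assoc]

lemma d_pr (n s : ℕ) (i : Fin (n + 1)) :
    dFrob Φ X n s ≫ pr X n i = pr X n i ≫ Pool.Agent.W534.iter (Φ.Fr X) s := tup_pr _ _ _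

lemma weil_eq (n s : ℕ) : weilFrob Φ X n s = sh X n 1 ≫ dFrob Φ X n s := by
  apply pw_hom_ext
  intro i
  rw [weil_comp, Category.assoc, d_pr, ← Category.assoc, sh_pr]

lemma d_sh (n s : ℕ) (a : Fin (n + 1)) :
    dFrob Φ X n s ≫ sh X n a = sh X n a ≫ dFrob Φ X n s := by
  apply pw_hom_ext
  intro i
  rw [Category.assoc, sh_pr, d_pr, Category.assoc, d_pr, ← Category.assoc, sh_pr]

lemma map_d_pr (n s : ℕ) (i : Fin (n + 1)) (y : W.H X) :
    W.map (dFrob Φ X n s) (W.map (pr X n i) y) = W.map (pr X n i) (frob Φ X s y) := by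
  rw [← W.map_comp, d_pr, W.map_comp]
  rfl

lemma map_d_sh (n s : ℕ) (a : Fin (n + 1)) (x : W.H (pw X n)) :
    gg W (dFrob Φ X n s) (W.map (sh X n a) x) = W.map (sh X n a) (gg W (dFrob Φ X n s) x) := by
  rw [gg_apply, gg_apply, ← W.map_comp, ← W.map_comp, d_sh]

lemma gg_mul (f : Z ⟶ Z) (x y : W.H Z) : gg W f (x * y) = gg W f x * gg W f y :=
  map_mul (W.map f) x y

/-- Products of generalised eigenvectors. -/
lemma prod_gen (f : Z ⟶ Z) : ∀ {m : ℕ} (g : Fin m → W.H Z) (μ : Fin m → W.K),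
    (∀ i, g i ∈ (gg W f).maxGenEigenspace (μ i)) →
    (List.ofFn g).prod ∈ (gg W f).maxGenEigenspace (∏ i, μ i)
  | 0, g, μ, _ => by
    rw [List.ofFn_zero, List.prod_nil, Fin.prod_univ_zero, Module.End.mem_maxGenEigenspace]
    refine ⟨1, ?_⟩
    rw [pow_one, LinearMap.sub_apply, LinearMap.smul_apply, Module.End.one_apply, one_smul,
      gg_apply, map_one, sub_self]
  | m + 1, g, μ, h => by
    rw [List.ofFn_succ, List.prod_cons, Fin.prod_univ_succ]
    exact gen_bilin (β := LinearMap.mul W.K (W.H Z)) (fun a b => (gg_mul f a b).symm) (h 0)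
      (prod_gen f (fun i => g i.succ) (fun i => μ i.succ) fun i => h i.succ)

lemma monv_gen {n s : ℕ} {v : Fin (n + 1) → W.H X} {μ : Fin (n + 1) → W.K}
    (hv : ∀ i, v i ∈ (frob Φ X s).maxGenEigenspace (μ i)) :
    monv X n v ∈ (gg W (dFrob Φ X n s)).maxGenEigenspace (∏ i, μ i) := by
  rw [monv_eq]
  apply prod_gen
  intro i
  exact gen_semi (f := frob Φ X s) (θ := (W.map (pr X n i)).toLinearMap)
    (fun y => map_d_pr n s i y) (hv i)

lemma monv_gr {n : ℕ} {v : Fin (n + 1) → W.H X} {d : Fin (n + 1) → ℕ}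
    (hv : ∀ i, v i ∈ W.gr X (d i)) : monv X n v ∈ W.gr (pw X n) (∑ i, d i) := by
  rw [monv_eq]
  exact ofFn_gr _ _ fun i => W.map_mem _ (hv i)

/-- The rotations permute the external products up to scalars. -/
lemma sh_monv {n : ℕ} {v : Fin (n + 1) → W.H X} {d : Fin (n + 1) → ℕ}
    (hv : ∀ i, v i ∈ W.gr X (d i)) (a : Fin (n + 1)) :
    ∃ ε : W.K, W.map (sh X n a) (monv X n v) = ε • monv X n (fun i => v (i - a)) := by
  have h1 : W.map (sh X n a) (monv X n v) = (List.ofFn fun i => (fun j =>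
      W.map (pr X n j) (v (j - a))) (Equiv.addRight a i)).prod := by
    rw [monv_eq, map_list_prod, List.map_ofFn]
    congr 2
    funext i
    rw [Function.comp_apply, ← W.map_comp, sh_pr]
    simp
  obtain ⟨ε, _, h2⟩ := prod_perm (W := W) (ofFn_perm (fun j => W.map (pr X n j) (v (j - a)))
    (Equiv.addRight a)) (by
      intro x hx
      rw [List.mem_ofFn] at hx
      obtain ⟨i, rfl⟩ := hx
      exact ⟨_, W.map_mem _ (hv _)⟩)
  exact ⟨ε, by rw [h1, h2, monv_eq]⟩

/-- The twisted average over the rotations. -/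
noncomputable def rot (X : 𝒱.Obj) (n : ℕ) (ζ : W.K) (x : W.H (pw X n)) : W.H (pw X n) :=
  ∑ a : Fin (n + 1), ζ ^ (a : ℕ) • W.map (sh X n a) x

lemma rot_eig {n : ℕ} {ζ : W.K} (hζ : ζ ^ (n + 1) = 1) (x : W.H (pw X n)) :
    gg W (sh X n 1) (rot X n ζ x) = ζ⁻¹ • rot X n ζ x := by
  have hζ0 : ζ ≠ 0 := by
    rintro rfl
    rw [zero_pow (Nat.succ_ne_zero n)] at hζ
    exact zero_ne_one hζ
  rw [rot, map_sum, Finset.smul_sum]
  refine Fintype.sum_equiv (Equiv.addRight (1 : Fin (n + 1))) _ _ fun a => ?_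
  rw [map_smul, gg_apply, ← W.map_comp, sh_comp, Equiv.coe_addRight, smul_smul]
  congr 1
  have h1 : ((a + 1 : Fin (n + 1)) : ℕ) = ((a : ℕ) + 1) % (n + 1) := by
    rw [Fin.val_add, Fin.val_one', Nat.add_mod_mod]
  rw [h1, ← pow_eq_pow_mod _ hζ, pow_succ, mul_comm, mul_assoc, mul_inv_cancel₀ hζ0, mul_one]

/-- The twisted averages are generalised eigenvectors of the Frobenius endomorphism. -/
lemma rot_gen {n s : ℕ} {ζ Λ : W.K} (hζ : ζ ^ (n + 1) = 1) {x : W.H (pw X n)}
    (hx : x ∈ (gg W (dFrob Φ X n s)).maxGenEigenspace Λ) :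
    rot X n ζ x ∈ (gg W (weilFrob Φ X n s)).maxGenEigenspace (ζ⁻¹ * Λ) := by
  set G := gg W (dFrob Φ X n s) with hG
  set F := gg W (weilFrob Φ X n s) with hF
  set R := gg W (sh X n 1) with hR
  have hFR : ∀ y, F y = R (G y) := by
    intro y
    rw [hF, hR, hG, gg_apply, weil_eq, W.map_comp]
    rfl
  have hRG : ∀ y, G (R y) = R (G y) := fun y => map_d_sh n s 1 y
  have h1 : rot X n ζ x ∈ G.maxGenEigenspace Λ := by
    refine Submodule.sum_mem _ fun a _ => Submodule.smul_mem _ _ ?_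
    exact gen_semi (f := G) (g := G) (θ := (W.map (sh X n a)).toLinearMap)
      (fun y => map_d_sh n s a y) hx
  have key : ∀ (N : ℕ) (y : W.H (pw X n)), R y = ζ⁻¹ • y →
      ((F - (ζ⁻¹ * Λ) • (1 : Module.End W.K (W.H (pw X n)))) ^ N) y =
        (ζ⁻¹) ^ N • ((G - Λ • (1 : Module.End W.K (W.H (pw X n)))) ^ N) y := by
    intro N
    induction N with
    | zero => intro y _; rw [pow_zero, pow_zero, pow_zero, one_smul]
    | succ N ih =>
      intro y hy
      set y' := (G - Λ • (1 : Module.End W.K (W.H (pw X n)))) y with hy'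
      have e1 : (F - (ζ⁻¹ * Λ) • (1 : Module.End W.K (W.H (pw X n)))) y = ζ⁻¹ • y' := by
        rw [hy', LinearMap.sub_apply, LinearMap.sub_apply, LinearMap.smul_apply,
          LinearMap.smul_apply, Module.End.one_apply, hFR, ← hRG, hy, map_smul, smul_sub, smul_smul]
      have e2 : R y' = ζ⁻¹ • y' := by
        rw [hy', LinearMap.sub_apply, LinearMap.smul_apply, Module.End.one_apply, map_sub, map_smul,
          ← hRG, hy, map_smul, smul_sub, smul_comm Λ]
      rw [pow_succ, Module.End.mul_apply, e1, map_smul, ih y' e2, smul_smul,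
        pow_succ (G - Λ • (1 : Module.End W.K (W.H (pw X n)))), Module.End.mul_apply, ← hy',
        pow_succ']
  obtain ⟨N, hN⟩ := (Module.End.mem_maxGenEigenspace _ _ _).1 h1
  refine (Module.End.mem_maxGenEigenspace _ _ _).2 ⟨N, ?_⟩
  rw [key N _ (rot_eig hζ x), hN, smul_zero]

end Pool.Agent.H50.WR
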