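import Pool.Agent.H50.WR.B

/-!
# Words and rotations
-/

set_option linter.unusedSectionVars false

open CategoryTheory AlgebraicGeometry Finset Polynomial

universe u v

namespace Pool.Agent.H50.WR

open Pool.Agent.H914 Pool.Agent.W534 VarClass Obj WeilCohomology Pool.Agent.H281R3.HT
open Pool.Agent.Y163 (pw pr tup perm HBasis mon mon_eq tup_pr perm_pr perm_mul pw_hom_ext ofFn_perm
  prod_perm genU mem_genU exists_monBasis exists_hbasis)
open Pool.Agent.Y133.Half (algSys Sys PH xp corr_xp spanCycles_of_algSpan)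
open Pool.Agent.Y133.Half.Sys (Op mem_Op)
open Pool.Agent.R940 (IsEig frob_pr gen_semi gen_bilin ofFn_gr IsWeilFamily deg_le)
open Pool.Agent.R936 (monv monv_eq monv_zero tens tens_monv tens_mem op_apply lw TL AllWords
  span_le_algSpan lw_cons lw_nil lw_append lw_perm IsUnitIdx exists_ofFn)
open Pool.Agent.W536.RR (algSpan_map algSpan_mul one_mem_algSpan)

variable {k : Type u} [Field k] {𝒱 : VarClass k} {ops : CycleOps 𝒱}
  {W : WeilCohomology.{u, v} ops} {X Y Z : 𝒱.Obj} {p : ℕ} {Φ : FrobSystem W p}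
  {ι : Type v} {B : HBasis W X ι} {lam : ι → W.K}

/-- The values of the letters: elements of the basis or powers of the class `ξ`. -/
noncomputable def val (B : HBasis W X ι) (ξ : W.H X) : ι ⊕ ℕ → W.H X
  | Sum.inl l => B.b l
  | Sum.inr j => ξ ^ j

/-- The degrees of the letters. -/
def dg (B : HBasis W X ι) : ι ⊕ ℕ → ℕ
  | Sum.inl l => B.deg l
  | Sum.inr j => 2 * j

/-- The eigenvalues of the letters. -/
def ev {K : Type*} [Field K] (lam : ι → K) (Q : K) (s : ℕ) : ι ⊕ ℕ → K
  | Sum.inl l => lam l ^ s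
  | Sum.inr j => Q ^ j

/-- The remaining letters. -/
noncomputable def res (B : HBasis W X ι) : ι ⊕ ℕ → W.H X
  | Sum.inl l => B.b l
  | Sum.inr _ => 1

/-- The operator `x ↦ tr(ξ ^ (d - j) x) / tr(ξ ^ d)`. -/
noncomputable def evOp (ξ : W.H X) (j : ℕ) : Module.End W.K (W.H X) :=
  (W.tr X (ξ ^ X.dim))⁻¹ • W.corr (xp W (ξ ^ (X.dim - j)) (1 : W.H X))

/-- The operators on the letters. -/
noncomputable def act (ξ : W.H X) : ι ⊕ ℕ → Module.End W.K (W.H X)
  | Sum.inl _ => 1
  | Sum.inr j => evOp ξ j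

lemma evOp_apply {ξ : W.H X} (j : ℕ) {i : ℕ} {z : W.H X} (hz : z ∈ W.gr X i) :
    evOp ξ j z = ((W.tr X (ξ ^ X.dim))⁻¹ * W.tr X (ξ ^ (X.dim - j) * z)) • 1 := by
  rw [evOp, LinearMap.smul_apply, corr_xp _ PH.one (PH.of hz), zero_mul, pow_zero, one_mul,
    smul_smul]

lemma pow_algSpan {ξ : W.H X} (hξ : ξ ∈ algSpan W X) (j : ℕ) : ξ ^ j ∈ algSpan W X := by
  induction j with
  | zero => rw [pow_zero]; exact one_mem_algSpan
  | succ j ih => rw [pow_succ]; exact algSpan_mul ih hξ

lemma pow_gr {ξ : W.H X} (hξ : ξ ∈ W.gr X 2) (j : ℕ) : ξ ^ j ∈ W.gr X (2 * j) := by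
  induction j with
  | zero => rw [pow_zero]; exact W.one_mem X
  | succ j ih => rw [pow_succ]; exact W.mul_mem ih hξ

lemma evOp_mem {ξ : W.H X} (hξ : ξ ∈ algSpan W X) (j : ℕ) : evOp ξ j ∈ (algSys W).Op X X := by
  apply Submodule.smul_mem
  apply Op.corr
  exact algSpan_mul (algSpan_map _ (pow_algSpan hξ _)) (algSpan_map _ one_mem_algSpan)

lemma act_mem {ξ : W.H X} (hξ : ξ ∈ algSpan W X) (x : ι ⊕ ℕ) :
    act (ι := ι) ξ x ∈ (algSys W).Op X X := by
  rcases x with l | j
  · exact Op.id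
  · exact evOp_mem hξ j

lemma evOp_pow {ξ : W.H X} (hξ : ξ ∈ W.gr X 2) (h0 : W.tr X (ξ ^ X.dim) ≠ 0) {j : ℕ}
    (hj : j ≤ X.dim) : evOp ξ j (ξ ^ j) = 1 := by
  rw [evOp_apply j (pow_gr hξ j), ← pow_add, Nat.sub_add_cancel hj, inv_mul_cancel₀ h0, one_smul]

lemma evOp_pos {ξ : W.H X} (hξ : ξ ∈ W.gr X 2) {i : ℕ} (hi : 0 < i) {z : W.H X}
    (hz : z ∈ W.gr X i) : evOp ξ 0 z = 0 := by
  rw [evOp_apply 0 hz, Nat.sub_zero, W.tr_eq_zero (W.mul_mem (pow_gr hξ _) hz) (by omega),
    mul_zero, zero_smul]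

lemma val_gr {ξ : W.H X} (hξ : ξ ∈ W.gr X 2) (x : ι ⊕ ℕ) : val B ξ x ∈ W.gr X (dg B x) := by
  rcases x with l | j
  · exact B.mem l
  · exact pow_gr hξ j

lemma frob_pow_xi {ξ : W.H X} (hF : W.map (Φ.Fr X) ξ = ((p : W.K) ^ Φ.e X) • ξ) (s j : ℕ) :
    frob Φ X s (ξ ^ j) = ((Pool.Agent.W534.card Φ X s : W.K) ^ j) • ξ ^ j := by
  have h0 : frob Φ X 1 ξ = ((p : W.K) ^ Φ.e X) • ξ := by
    rw [frob_apply, Pool.Agent.W534.map_iter]
    exact hF
  have h1 : frob Φ X s ξ = ((Pool.Agent.W534.card Φ X s : W.K)) • ξ := by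
    have h2 := frob_mul_eq Φ (Z := X) 1 s
    rw [one_mul] at h2
    rw [h2, pow_eig _ _ h0, Pool.Agent.W534.card, Nat.cast_pow, ← pow_mul]
  rw [frob_apply, map_pow, ← frob_apply, h1, _root_.smul_pow]

lemma val_gen {ξ : W.H X} (hB : IsEig Φ B lam)
    (hF : W.map (Φ.Fr X) ξ = ((p : W.K) ^ Φ.e X) • ξ) (s : ℕ) (x : ι ⊕ ℕ) :
    val B ξ x ∈ (frob Φ X s).maxGenEigenspace
      (ev lam (Pool.Agent.W534.card Φ X s : W.K) s x) := by
  rcases x with l | j
  · have h1 := gen_mono (frob Φ X 1) (lam l) s (hB l)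
    rwa [← frob_mul_eq, one_mul] at h1
  · refine (Module.End.mem_maxGenEigenspace _ _ _).2 ⟨1, ?_⟩
    rw [pow_one, LinearMap.sub_apply, LinearMap.smul_apply, Module.End.one_apply]
    exact sub_eq_zero.2 (frob_pow_xi hF s j)

/-- **Extraction of a word from the twisted average of its rotations.** -/
theorem extract {n s c : ℕ} (hgen : genE W (weilFrob Φ X n s) (Pool.Agent.W534.card Φ X s) c ≤
      spanCycles W (pw X n) c) (hB : IsEig Φ B lam) {ξ : W.H X} (hξ : ξ ∈ W.gr X 2)
    (hξa : ξ ∈ algSpan W X) (h0 : W.tr X (ξ ^ X.dim) ≠ 0)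
    (hF : W.map (Φ.Fr X) ξ = ((p : W.K) ^ Φ.e X) • ξ) (P : Fin (n + 1) → ι ⊕ ℕ)
    (hdeg : ∑ i, dg B (P i) = 2 * c)
    (hev : (∏ i, ev lam (Pool.Agent.W534.card Φ X s : W.K) s (P i)) ^ (n + 1) =
      ((Pool.Agent.W534.card Φ X s : W.K) ^ c) ^ (n + 1))
    {s0 : ℕ} (hs0 : 0 < s0) (hs1 : s0 ≤ n) (hpos : ∀ i, i.val < s0 → 0 < dg B (P i))
    (hun : ∀ i, s0 ≤ i.val → P i = Sum.inr 0) (hle : ∀ i j, P i = Sum.inr j → j ≤ X.dim) :
    monv X n (fun i => res B (P i)) ∈ algSpan W (pw X n) := by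
  set Q : W.K := (Pool.Agent.W534.card Φ X s : W.K) with hQ
  have hQ0 : Q ≠ 0 := card_ne Φ s
  set Λ : W.K := ∏ i, ev lam Q s (P i) with hΛ
  have hΛ0 : Λ ≠ 0 := by
    intro h
    rw [h, zero_pow (Nat.succ_ne_zero n)] at hev
    exact pow_ne_zero _ (pow_ne_zero _ hQ0) hev.symm
  set ζ : W.K := Λ / Q ^ c with hζ
  have hζ1 : ζ ^ (n + 1) = 1 := by
    rw [hζ, div_pow, hev, div_self (pow_ne_zero _ (pow_ne_zero _ hQ0))]
  have hζ0 : ζ ≠ 0 := div_ne_zero hΛ0 (pow_ne_zero _ hQ0)
  have hζΛ : ζ⁻¹ * Λ = Q ^ c := by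
    rw [hζ, inv_div, div_mul_cancel₀ _ hΛ0]
  set v : Fin (n + 1) → W.H X := fun i => val B ξ (P i) with hv
  have hvgr : ∀ i, v i ∈ W.gr X (dg B (P i)) := fun i => val_gr hξ _
  have hC : rot X n ζ (monv X n v) ∈ algSpan W (pw X n) := by
    apply span_le_algSpan (j := c)
    apply hgen
    refine ⟨?_, ?_⟩
    · have h1 := rot_gen (Φ := Φ) (s := s) hζ1 (monv_gen (s := s) (v := v)
        (μ := fun i => ev lam Q s (P i)) fun i => val_gen hB hF s (P i))
      rw [← hΛ, hζΛ] at h1
      exact h1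
    · rw [← hdeg]
      refine Submodule.sum_mem _ fun a _ => Submodule.smul_mem _ _ (W.map_mem _ ?_)
      exact monv_gr hvgr
  have h1 := op_apply (tens_mem n fun i => act_mem hξa (P i)) hC
  have h2 : tens X n (fun i => act ξ (P i)) (rot X n ζ (monv X n v)) =
      monv X n (fun i => res B (P i)) := by
    rw [rot, map_sum, Finset.sum_eq_single_of_mem (0 : Fin (n + 1)) (Finset.mem_univ _)]
    · rw [sh_zero, W.map_id, Fin.val_zero, pow_zero, one_smul, tens_monv]
      congr 1
      funext i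
      change act ξ (P i) (val B ξ (P i)) = res B (P i)
      rcases hPi : P i with l | j
      · rfl
      · exact evOp_pow hξ h0 (hle i j hPi)
    · intro a _ ha
      obtain ⟨ε, hε⟩ := sh_monv hvgr a
      rw [hε, map_smul, map_smul, tens_monv]
      have h3 : ∃ i : Fin (n + 1), s0 ≤ i.val ∧ (i - a).val < s0 := by
        by_cases hlt : a.val < s0
        · refine ⟨⟨s0, by omega⟩, le_rfl, ?_⟩
          have h4 : a ≤ ⟨s0, by omega⟩ := by
            rw [Fin.le_def]
            exact hlt.le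
          rw [Fin.sub_val_of_le h4]
          have h5 : 0 < a.val := Nat.pos_of_ne_zero fun h => ha (Fin.ext h)
          change s0 - a.val < s0
          omega
        · exact ⟨a, by omega, by rw [sub_self]; exact hs0⟩
      obtain ⟨i, hi1, hi2⟩ := h3
      rw [monv_zero (i := i), smul_zero, smul_zero]
      rw [hun i hi1]
      exact evOp_pos hξ (hpos _ hi2) (hvgr _)
  rw [h2] at h1
  exact h1

/-- Fillers: lists of numbers between `1` and `d` with given sum. -/
lemma exists_filler {d : ℕ} (hd : 0 < d) (T : ℕ) : ∃ E : List ℕ, (∀ x ∈ E, 0 < x ∧ x ≤ d) ∧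
    E.sum = T ∧ d * E.length < T + d := by
  induction T using Nat.strong_induction_on with
  | _ T ih =>
    rcases Nat.eq_zero_or_pos T with rfl | hT
    · exact ⟨[], by simp, rfl, by simpa using hd⟩
    · by_cases hle : T ≤ d
      · exact ⟨[T], by simpa using ⟨hT, hle⟩, by simp, by simpa using hT⟩
      · obtain ⟨E, h1, h2, h3⟩ := ih (T - d) (by omega)
        refine ⟨d :: E, ?_, ?_, ?_⟩
        · intro x hx
          rcases List.mem_cons.1 hx with rfl | hx
          · exact ⟨hd, le_rfl⟩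
          · exact h1 x hx
        · rw [List.sum_cons, h2]
          omega
        · rw [List.length_cons, Nat.mul_succ]
          omega

lemma prod_pow_list {K : Type*} [CommMonoid K] (Q : K) (E : List ℕ) :
    (E.map fun j => Q ^ j).prod = Q ^ E.sum := by
  induction E with
  | nil => simp
  | cons a E ih => rw [List.map_cons, List.prod_cons, ih, List.sum_cons, pow_add]

/-- Words without units. -/
theorem word_alg {n s c N : ℕ} (hgen : genE W (weilFrob Φ X n s) (Pool.Agent.W534.card Φ X s) c ≤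
      spanCycles W (pw X n) c) (hB : IsEig Φ B lam) {ξ : W.H X} (hξ : ξ ∈ W.gr X 2)
    (hξa : ξ ∈ algSpan W X) (h0 : W.tr X (ξ ^ X.dim) ≠ 0)
    (hF : W.map (Φ.Fr X) ξ = ((p : W.K) ^ Φ.e X) • ξ)
    (hc1 : N * X.dim ≤ c) (hc2 : c + N * X.dim ≤ n * X.dim)
    (L : List ((Z ⟶ X) × ι)) (hL : L ≠ []) (hlen : L.length ≤ N)
    (hpos : ∀ x ∈ L, 0 < B.deg x.2) {J : ℕ} (hJ : ((L.map Prod.snd).map B.deg).sum = 2 * J)
    (hlam : (((L.map Prod.snd).map lam).prod) ^ (s * (n + 1)) =
      ((p ^ Φ.e X : ℕ) : W.K) ^ (J * (s * (n + 1)))) :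
    lw B L ∈ algSpan W Z := by
  classical
  obtain ⟨x0, L', hL'⟩ := List.exists_cons_of_ne_nil hL
  have hx0 : x0 ∈ L := by rw [hL']; exact List.mem_cons_self
  have hd : 0 < X.dim := by
    have h1 := hpos x0 hx0
    have h2 := deg_le B x0.2
    omega
  have hdegle : ∀ M : List ((Z ⟶ X) × ι),
      ((M.map Prod.snd).map B.deg).sum ≤ M.length * (2 * X.dim) := by
    intro M
    induction M with
    | nil => simp
    | cons a M ih =>
      rw [List.map_cons, List.map_cons, List.sum_cons, List.length_cons, Nat.succ_mul]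
      have := deg_le B a.2
      omega
  have hJle : J ≤ L.length * X.dim := by
    have h1 := hdegle L
    rw [hJ] at h1
    have h2 : L.length * (2 * X.dim) = 2 * (L.length * X.dim) := by ring
    omega
  have hJ1 : 0 < J := by
    have h1 : B.deg x0.2 ≤ ((L.map Prod.snd).map B.deg).sum := by
      rw [hL', List.map_cons, List.map_cons, List.sum_cons]
      omega
    have h2 := hpos x0 hx0
    omega
  have hlenN : L.length * X.dim ≤ N * X.dim := Nat.mul_le_mul_right _ hlen
  obtain ⟨E, hE1, hE2, hE3⟩ := exists_filler hd (c - J)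
  have hElen : L.length + E.length ≤ n := by
    have h1 : X.dim * (N + E.length) < X.dim * (n + 1) := by
      calc X.dim * (N + E.length) = X.dim * E.length + N * X.dim := by ring
        _ < (c - J + X.dim) + N * X.dim := by omega
        _ ≤ X.dim * (n + 1) := by
          have : X.dim * (n + 1) = n * X.dim + X.dim := by ring
          omega
    have h2 := Nat.lt_of_mul_lt_mul_left h1
    omega
  set r := n + 1 - (L.length + E.length) with hr
  set P1 : List ((Z ⟶ X) × (ι ⊕ ℕ)) := L.map (fun x => (x.1, Sum.inl x.2)) ++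
    E.map (fun j => (x0.1, Sum.inr j)) with hP1
  set P : List ((Z ⟶ X) × (ι ⊕ ℕ)) := P1 ++ List.replicate r (x0.1, Sum.inr 0) with hP
  have hP1len : P1.length = L.length + E.length := by
    rw [hP1, List.length_append, List.length_map, List.length_map]
  have hPlen : P.length = n + 1 := by
    rw [hP, List.length_append, hP1len, List.length_replicate]
    omega
  obtain ⟨g, hg⟩ := exists_ofFn P hPlen
  have hgi : ∀ i : Fin (n + 1), P[i.val]'(by rw [hPlen]; exact i.2) = g i := by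
    intro i
    have h1 : (List.ofFn g)[i.val]'(by rw [List.length_ofFn]; exact i.2) = g i := by
      rw [List.getElem_ofFn]
    rw [← h1]
    congr 1
    exact hg.symm
  have hP1mem : ∀ x ∈ P1, 0 < dg B x.2 := by
    intro x hx
    rcases List.mem_append.1 hx with h | h
    · obtain ⟨y, hy, rfl⟩ := List.mem_map.1 h
      exact hpos y hy
    · obtain ⟨j, hj, rfl⟩ := List.mem_map.1 h
      have := (hE1 j hj).1
      change 0 < 2 * j
      omega
  have hPmem : ∀ i j, (g i).2 = Sum.inr j → j ≤ X.dim := by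
    intro i j hij
    have h1 : g i ∈ P := by rw [← hg]; exact (List.mem_ofFn' _ _).2 ⟨i, rfl⟩
    rcases List.mem_append.1 h1 with h | h
    · rcases List.mem_append.1 h with h | h
      · obtain ⟨y, hy, h2⟩ := List.mem_map.1 h
        rw [← h2] at hij
        cases hij
      · obtain ⟨j', hj', h2⟩ := List.mem_map.1 h
        rw [← h2] at hij
        cases hij
        exact (hE1 _ hj').2
    · rw [List.eq_of_mem_replicate h] at hij
      cases hij
      exact Nat.zero_le _
  have hsum : ∀ {M : Type v} [AddCommMonoid M] (φ : ι ⊕ ℕ → M), ∑ i, φ (g i).2 =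
      (P.map fun x => φ x.2).sum := by
    intro M _ φ
    rw [← hg, List.map_ofFn, List.sum_ofFn]
    rfl
  have hdeg : ∑ i, dg B (g i).2 = 2 * c := by
    have h1 : ∑ i, dg B (g i).2 = (P.map fun x => dg B x.2).sum := by
      rw [← hg, List.map_ofFn, List.sum_ofFn]
      rfl
    have h2 : (P.map fun x => dg B x.2).sum = 2 * J + 2 * E.sum := by
      rw [hP, hP1, List.map_append, List.map_append, List.sum_append, List.sum_append,
        List.map_map, List.map_map, List.map_replicate, List.sum_replicate]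
      have e1 : (L.map ((fun x : (Z ⟶ X) × (ι ⊕ ℕ) => dg B x.2) ∘
          fun x : (Z ⟶ X) × ι => (x.1, (Sum.inl x.2 : ι ⊕ ℕ)))).sum = 2 * J := by
        rw [← hJ, List.map_map]
        rfl
      have e2 : (E.map ((fun x : (Z ⟶ X) × (ι ⊕ ℕ) => dg B x.2) ∘
          fun j : ℕ => (x0.1, (Sum.inr j : ι ⊕ ℕ)))).sum = 2 * E.sum := by
        have e3 : ((fun x : (Z ⟶ X) × (ι ⊕ ℕ) => dg B x.2) ∘
          fun j : ℕ => (x0.1, (Sum.inr j : ι ⊕ ℕ))) = fun j => 2 * j := rfl
        rw [e3, List.sum_map_mul_left, List.map_id']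
      rw [e1, e2]
      change _ + r • (2 * 0) = _
      simp
    rw [h1, h2, hE2]
    omega
  set Q : W.K := (Pool.Agent.W534.card Φ X s : W.K) with hQ
  have hev : (∏ i, ev lam Q s (g i).2) ^ (n + 1) = (Q ^ c) ^ (n + 1) := by
    have h1 : ∏ i, ev lam Q s (g i).2 = (P.map fun x => ev lam Q s x.2).prod := by
      rw [← hg, List.map_ofFn, List.prod_ofFn]
      rfl
    have h2 : (P.map fun x => ev lam Q s x.2).prod =
        ((L.map Prod.snd).map lam).prod ^ s * Q ^ E.sum := by
      rw [hP, hP1, List.map_append, List.map_append, List.prod_append, List.prod_append,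
        List.map_map, List.map_map, List.map_replicate, List.prod_replicate]
      have e1 : (L.map ((fun x : (Z ⟶ X) × (ι ⊕ ℕ) => ev lam Q s x.2) ∘
          fun x : (Z ⟶ X) × ι => (x.1, (Sum.inl x.2 : ι ⊕ ℕ)))).prod =
          ((L.map Prod.snd).map lam).prod ^ s := by
        have e3 : ((fun x : (Z ⟶ X) × (ι ⊕ ℕ) => ev lam Q s x.2) ∘
          fun x : (Z ⟶ X) × ι => (x.1, (Sum.inl x.2 : ι ⊕ ℕ))) = fun x => lam x.2 ^ s := rfl
        rw [e3]
        clear hJ hlam hlen hpos hL hL' hx0 hJle hlenN hElen hr hP1 hP hP1len hPlen hP1mem hPmem hgi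
          hsum hdeg h1 hg
        induction L with
        | nil => simp
        | cons a L ih =>
          rw [List.map_cons, List.map_cons, List.map_cons, List.prod_cons, List.prod_cons, mul_pow]
          congr 1
      have e2 : (E.map ((fun x : (Z ⟶ X) × (ι ⊕ ℕ) => ev lam Q s x.2) ∘
          fun j : ℕ => (x0.1, (Sum.inr j : ι ⊕ ℕ)))).prod = Q ^ E.sum := by
        have e3 : ((fun x : (Z ⟶ X) × (ι ⊕ ℕ) => ev lam Q s x.2) ∘
          fun j : ℕ => (x0.1, (Sum.inr j : ι ⊕ ℕ))) = fun j => Q ^ j := rfl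
        rw [e3, prod_pow_list]
      rw [e1, e2]
      change _ * (Q ^ 0) ^ r = _
      simp
    have h3 : ((L.map Prod.snd).map lam).prod ^ (s * (n + 1)) = (Q ^ J) ^ (n + 1) := by
      rw [hlam, hQ, Pool.Agent.W534.card, ← Nat.cast_pow, ← Nat.cast_pow, ← Nat.cast_pow,
        ← pow_mul, ← pow_mul, ← pow_mul]
      congr 2
      ring
    rw [h1, h2, mul_pow, ← pow_mul, h3, ← mul_pow, ← pow_add, hE2]
    congr 2
    omega
  have h1 := extract hgen hB hξ hξa h0 hF (fun i => (g i).2) hdeg hev (s0 := P1.length)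
    (by rw [hP1len]; have := List.length_pos_iff.2 hL; omega) (by rw [hP1len]; omega)
    (fun i hi => ?_) (fun i hi => ?_) hPmem
  · have h2 := algSpan_map (tup n fun i => (g i).1) h1
    rw [monv_eq, map_list_prod, List.map_ofFn] at h2
    have h3 : (List.ofFn ((W.map (tup n fun i => (g i).1)) ∘
        fun i => W.map (pr X n i) (res B (g i).2))) =
        P.map (fun x => W.map x.1 (res B x.2)) := by
      rw [← hg, List.map_ofFn]
      congr 1
      funext i
      rw [Function.comp_apply, Function.comp_apply, ← W.map_comp, tup_pr]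
    rw [h3, hP, hP1, List.map_append, List.map_append, List.prod_append, List.prod_append,
      List.map_map, List.map_map, List.map_replicate, List.prod_replicate] at h2
    have e1 : (L.map ((fun x : (Z ⟶ X) × (ι ⊕ ℕ) => W.map x.1 (res B x.2)) ∘
        fun x : (Z ⟶ X) × ι => (x.1, (Sum.inl x.2 : ι ⊕ ℕ)))).prod = lw B L := rfl
    have e2 : (E.map ((fun x : (Z ⟶ X) × (ι ⊕ ℕ) => W.map x.1 (res B x.2)) ∘
        fun j : ℕ => (x0.1, (Sum.inr j : ι ⊕ ℕ)))).prod = 1 := by
      apply List.prod_eq_one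
      intro y hy
      obtain ⟨j, _, rfl⟩ := List.mem_map.1 hy
      exact map_one (W.map x0.1)
    have e3 : W.map x0.1 (res B (Sum.inr 0)) = (1 : W.H Z) := map_one (W.map x0.1)
    rw [e1, e2, mul_one] at h2
    change lw B L * (W.map x0.1 (res B (Sum.inr 0))) ^ r ∈ _ at h2
    rw [e3, one_pow, mul_one] at h2
    exact h2
  · apply hP1mem
    rw [← hgi i]
    simp only [hP]
    rw [List.getElem_append_left hi]
    exact List.getElem_mem _
  · have h2 : g i = (x0.1, Sum.inr 0) := by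
      rw [← hgi i]
      simp only [hP]
      rw [List.getElem_append_right hi, List.getElem_replicate]
    change (g i).2 = _
    rw [h2]

end Pool.Agent.H50.WR
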