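import Pool.Agent.H50.WR.C

/-!
# One order of pole of one Weil restriction
-/

set_option linter.unusedSectionVars false

open CategoryTheory AlgebraicGeometry Finset Polynomial

universe u v

namespace Pool.Agent.H50.WR

open Pool.Agent.H914 Pool.Agent.W534 VarClass Obj WeilCohomology Pool.Agent.H281R3.HT
open Pool.Agent.Y163 (pw pr tup HBasis prod_perm Big dim_pw)
open Pool.Agent.R940 (IsEig IsWeilFamily exists_ebasis weilFamily
  HasIntegralPolys IsSlopeDenominator powerBound powerBound_pos all_powers semisimple_of_poles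
  pole_of_semisimple)
open Pool.Agent.R936 (lw TL AllWords span_le_algSpan lw_cons lw_nil lw_append lw_perm IsUnitIdx
  exists_unit tate_of_words)
open Pool.Agent.W536.RR (algSpan_map algSpan_mul one_mem_algSpan)
open Module (finrank)

section Tau

variable {K ι : Type*} [Field K] [Finite ι]

/-- A common exponent for the short Tate words. -/
lemma exists_tau (q : ℕ) (lam : ι → K) (deg : ι → ℕ) (N : ℕ) : ∃ τ : ℕ, 0 < τ ∧
    ∀ l : List ι, l.length ≤ N → ∀ J, TL q lam deg l J →
      (l.map lam).prod ^ τ = ((q : ℕ) : K) ^ (J * τ) := by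
  classical
  have h1 : ∀ F : Finset (List ι), ∃ τ : ℕ, 0 < τ ∧ ∀ l ∈ F, ∀ J, TL q lam deg l J →
      (l.map lam).prod ^ τ = ((q : ℕ) : K) ^ (J * τ) := by
    intro F
    induction F using Finset.induction with
    | empty => exact ⟨1, one_pos, fun l hl => absurd hl (Finset.notMem_empty _)⟩
    | insert a F _ ih =>
      obtain ⟨τ, hτ, h⟩ := ih
      by_cases ha : ∃ J, TL q lam deg a J
      · obtain ⟨J, h2, s, hs, h3⟩ := ha
        refine ⟨τ * s, Nat.mul_pos hτ hs, fun l hl J' hJ' => ?_⟩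
        rcases Finset.mem_insert.1 hl with rfl | hl
        · have h4 : J' = J := by
            have h5 := hJ'.1
            omega
          rw [h4, mul_comm τ s, pow_mul, h3, Nat.cast_pow, ← pow_mul]
          congr 1
          ring
        · rw [pow_mul, h l hl J' hJ', ← pow_mul]
          congr 1
          ring
      · refine ⟨τ, hτ, fun l hl J' hJ' => ?_⟩
        rcases Finset.mem_insert.1 hl with rfl | hl
        · exact absurd ⟨J', hJ'⟩ ha
        · exact h l hl J' hJ'
  have hfin : {l : List ι | l.length ≤ N}.Finite := List.finite_length_le ι N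
  obtain ⟨τ, hτ, h⟩ := h1 hfin.toFinset
  exact ⟨τ, hτ, fun l hl => h l (by rw [Set.Finite.mem_toFinset]; exact hl)⟩

end Tau

variable {k : Type u} [Field k] {𝒱 : VarClass k} {ops : CycleOps 𝒱}
  {W : WeilCohomology.{u, v} ops} {X Y Z : 𝒱.Obj} {p : ℕ} {Φ : FrobSystem W p}
  {ι : Type v} {B : HBasis W X ι} {lam : ι → W.K}

/-- Letters of degree zero. -/
lemma letter_zero {i0 : ι} {c0 : W.K} (h0 : IsUnitIdx B lam i0 c0) {l : ι} (hl : B.deg l = 0) :
    l = i0 := by
  have h2 := B.mem l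
  rw [hl, W.gr_zero] at h2
  obtain ⟨c, hc⟩ := Submodule.mem_span_singleton.1 h2
  by_contra hne
  have h3 : B.b l = (c * c0⁻¹) • B.b i0 := by
    rw [h0.val, smul_smul, mul_assoc, inv_mul_cancel₀ h0.ne, mul_one, hc]
  have h4 : B.b.repr (B.b l) l = B.b.repr ((c * c0⁻¹) • B.b i0) l := by rw [← h3]
  rw [map_smul, B.b.repr_self, B.b.repr_self, Finsupp.single_eq_same, Finsupp.smul_apply,
    Finsupp.single_eq_of_ne hne, smul_zero] at h4
  exact one_ne_zero h4

lemma units {i0 : ι} {c0 : W.K} (h0 : IsUnitIdx B lam i0 c0) (L : List ((Z ⟶ X) × ι))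
    (hL : ∀ x ∈ L, B.deg x.2 = 0) : (∃ c : W.K, lw B L = c • 1) ∧
      ((L.map Prod.snd).map lam).prod = 1 ∧ ((L.map Prod.snd).map B.deg).sum = 0 := by
  induction L with
  | nil => exact ⟨⟨1, by rw [lw_nil, one_smul]⟩, rfl, rfl⟩
  | cons a L ih =>
    obtain ⟨⟨c, h1⟩, h2, h3⟩ := ih fun x hx => hL x (List.mem_cons_of_mem _ hx)
    have ha := hL a List.mem_cons_self
    have ha' := letter_zero h0 ha
    refine ⟨⟨c0 * c, ?_⟩, ?_, ?_⟩
    · rw [lw_cons, h1, ha', h0.val, map_smul, map_one, smul_mul_smul_comm, one_mul]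
    · rw [List.map_cons, List.map_cons, List.prod_cons, h2, mul_one, ha', h0.lam_eq]
    · rw [List.map_cons, List.map_cons, List.sum_cons, h3, ha]

/-- **All short Tate words are algebraic.** -/
theorem words_of_weil {n s c N : ℕ} (hN : 0 < N)
    (hgen : genE W (weilFrob Φ X n s) (Pool.Agent.W534.card Φ X s) c ≤
      spanCycles W (pw X n) c) (hB : IsEig Φ B lam) {i0 : ι} {c0 : W.K}
    (h0 : IsUnitIdx B lam i0 c0) {ξ : W.H X} (hξ : ξ ∈ W.gr X 2)
    (hξa : ξ ∈ algSpan W X) (htr : W.tr X (ξ ^ X.dim) ≠ 0)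
    (hF : W.map (Φ.Fr X) ξ = ((p : W.K) ^ Φ.e X) • ξ)
    (hc1 : N * X.dim ≤ c) (hc2 : c + N * X.dim ≤ n * X.dim) {τ : ℕ}
    (hτ : ∀ l : List ι, l.length ≤ N → ∀ J, TL (p ^ Φ.e X) lam B.deg l J →
      (l.map lam).prod ^ τ = ((p ^ Φ.e X : ℕ) : W.K) ^ (J * τ)) (hdvd : τ ∣ s * (n + 1)) :
    AllWords Φ B lam (N - 1) := by
  classical
  intro Z M J hM hlen hT
  let f : (Z ⟶ X) × ι → Bool := fun x => decide (B.deg x.2 ≠ 0)
  set L1 := M.filter f with hL1
  set L0 := M.filter (fun x => !f x) with hL0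
  have hperm : (L1 ++ L0).Perm M := List.filter_append_perm f M
  have h1deg : ∀ x ∈ L1, 0 < B.deg x.2 := by
    intro x hx
    have h1 := (List.mem_filter.1 hx).2
    have h2 : B.deg x.2 ≠ 0 := of_decide_eq_true h1
    omega
  have h0deg : ∀ x ∈ L0, B.deg x.2 = 0 := by
    intro x hx
    have h1 := (List.mem_filter.1 hx).2
    by_contra h2
    simp [f, h2] at h1
  obtain ⟨⟨c', hc'⟩, hu1, hu2⟩ := units h0 L0 h0deg
  obtain ⟨hT1, t, ht, hT2⟩ := hT
  have hsum : ((L1.map Prod.snd).map B.deg).sum = 2 * J := by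
    rw [← hT1]
    have h1 : ((M.map Prod.snd).map B.deg).sum = ((L1.map Prod.snd).map B.deg).sum +
        ((L0.map Prod.snd).map B.deg).sum := by
      rw [← List.sum_append, ← List.map_append, ← List.map_append]
      exact ((hperm.symm.map _).map _).sum_eq
    rw [h1, hu2, add_zero]
  have hprod : ((L1.map Prod.snd).map lam).prod = ((M.map Prod.snd).map lam).prod := by
    have h1 : ((M.map Prod.snd).map lam).prod = ((L1.map Prod.snd).map lam).prod *
        ((L0.map Prod.snd).map lam).prod := by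
      rw [← List.prod_append, ← List.map_append, ← List.map_append]
      exact ((hperm.symm.map _).map _).prod_eq
    rw [h1, hu1, mul_one]
  have hTL : TL (p ^ Φ.e X) lam B.deg (L1.map Prod.snd) J := ⟨hsum, t, ht, by rw [hprod, hT2]⟩
  have hlen1 : L1.length ≤ N := by
    have h1 := hperm.length_eq
    rw [List.length_append] at h1
    omega
  have key : lw B L1 ∈ algSpan W Z := by
    by_cases hnil : L1 = []
    · rw [hnil, lw_nil]
      exact one_mem_algSpan
    · refine word_alg hgen hB hξ hξa htr hF hc1 hc2 L1 hnil hlen1 h1deg hsum ?_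
      obtain ⟨r, hr⟩ := hdvd
      rw [hr, pow_mul, hτ _ (by rw [List.length_map]; exact hlen1) J hTL, ← pow_mul]
      congr 1
      ring
  obtain ⟨ε, _, h2⟩ := lw_perm (B := B) hperm.symm
  rw [h2, lw_append, hc', mul_smul_comm, mul_one]
  exact Submodule.smul_mem _ _ (Submodule.smul_mem _ _ key)

/-- **One order of pole of one Weil restriction decides the formula for all powers.** -/
theorem weil_main [hp : Fact p.Prime] {σ : W.K →+* ℂ} [IsAlgClosed W.K]
    (hRH : ∀ Z, RiemannHyp Φ σ Z) (hint : HasIntegralPolys Φ σ X) {E : X.Cycles}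
    (hE : X.IsCyc 1 E) (hbig : Big ops X E)
    (hFE : W.map (Φ.Fr X) (W.cl X E) = ((p : W.K) ^ Φ.e X) • W.cl X E)
    {D : ℕ} (hD : IsSlopeDenominator Φ σ X D) :
    (∃ τ : ℕ, 0 < τ ∧ ∀ n s c : ℕ, 0 < s → τ ∣ s * (n + 1) →
      powerBound (finrank W.K (W.H X)) D * X.dim ≤ c →
      c + powerBound (finrank W.K (W.H X)) D * X.dim ≤ n * X.dim →
        (FormulaOver W σ (weilFrob Φ X n s) (Pool.Agent.W534.card Φ X s) c ↔
          ∀ n j, j ≤ (pw X n).dim → PoleFormula Φ σ (pw X n) j)) ∧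
    ((∀ n j, j ≤ (pw X n).dim → PoleFormula Φ σ (pw X n) j) →
      ∀ n s j : ℕ, 0 < s → j ≤ (pw X n).dim →
        FormulaOver W σ (weilFrob Φ X n s) (Pool.Agent.W534.card Φ X s) j ∧
        FormulaOver W σ (Pool.Agent.W534.iter (Φ.Fr (pw X n)) s)
          (Pool.Agent.W534.card Φ (pw X n) s) j) := by
  classical
  have htr : W.tr X (W.cl X E ^ X.dim) ≠ 0 := hbig.tr hE
  have h1 : (1 : W.H X) ≠ 0 := by
    intro h
    apply htr
    rw [← mul_one (W.cl X E ^ X.dim), h, mul_zero, map_zero]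
  have hH : 0 < finrank W.K (W.H X) := by
    have : Nontrivial (W.H X) := ⟨1, 0, h1⟩
    exact Module.finrank_pos
  have hback : (∀ n j, j ≤ (pw X n).dim → PoleFormula Φ σ (pw X n) j) →
      ∀ n s j : ℕ, 0 < s → j ≤ (pw X n).dim →
        FormulaOver W σ (weilFrob Φ X n s) (Pool.Agent.W534.card Φ X s) j ∧
        FormulaOver W σ (Pool.Agent.W534.iter (Φ.Fr (pw X n)) s)
          (Pool.Agent.W534.card Φ (pw X n) s) j := by
    intro h n s j hs hj
    have h2 := semisimple_of_poles (hRH _) (h n)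
    exact ⟨formula_of_tate (hRH _) (isFr_weil hp.out.one_lt X n hs) h2 hj,
      formula_of_tate (hRH _) (isFr_frob hp.out.one_lt (pw X n) hs) h2 hj⟩
  refine ⟨?_, hback⟩
  obtain ⟨ι, hfin, B, lam, hB⟩ := exists_ebasis Φ X
  have hF := weilFamily hB (hRH X) hint hD
  obtain ⟨i0, c0, h0⟩ := exists_unit hB hF h1
  have hN := powerBound_pos (D := D) hH
  obtain ⟨τ, hτ, h2⟩ := exists_tau (p ^ Φ.e X) lam B.deg (powerBound (finrank W.K (W.H X)) D)
  refine ⟨τ, hτ, fun n s c hs hdvd hc1 hc2 => ⟨fun h => ?_, fun h => ?_⟩⟩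
  · have hcn : c ≤ (pw X n).dim := by
      rw [dim_pw]
      have : (n + 1) * X.dim = n * X.dim + X.dim := by ring
      omega
    have hgen := alg_of_formula (hRH _) (isFr_weil hp.out.one_lt X n hs) hcn h
    have hw := words_of_weil (by omega) hgen hB h0 (W.cl_mem hE)
      (span_le_algSpan (j := 1) (Pool.Agent.H447.mem_span_cl hE)) htr hFE hc1 hc2 h2 hdvd
    refine all_powers hRH hint hE htr hD fun j hj => ?_
    exact pole_of_semisimple (hRH _) (fun j => tate_of_words hB hw le_rfl j) hj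
  · refine (hback h n s c hs ?_).1
    rw [dim_pw]
    have : (n + 1) * X.dim = n * X.dim + X.dim := by ring
    omega

end Pool.Agent.H50.WR
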