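import Pool.Graph.R_seed8.Y163.Pow

/-!
# Weil restrictions, twisted Frobenius endomorphisms and the formula over one finite field
-/

open CategoryTheory AlgebraicGeometry

universe u v

namespace Pool.Agent.H50.WR

open Pool.Agent.H914 Pool.Agent.W534 VarClass Obj WeilCohomology
open Pool.Agent.Y163 (pw pr tup)

variable {k : Type u} [Field k] {𝒱 : VarClass k} {ops : CycleOps 𝒱}

/-- Let `q` be the number of elements of the field over which the `s`-th iterate of `Fr X` is the
Frobenius endomorphism of a model of `X`. Over an algebraic closure the Weil restriction of `X` from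
the field with `q ^ (n + 1)` elements to the field with `q` elements is the product of `n + 1`
copies of `X`, and its Frobenius endomorphism relative to the field with `q` elements is the
endomorphism `(x₀, x₁, …, xₙ) ↦ (F x₁, …, F xₙ, F x₀)` with `F = Fr X ^ s`. (The indices are added
modulo `n + 1`.) -/
noncomputable def weilFrob {W : WeilCohomology.{u, v} ops} {p : ℕ} (Φ : FrobSystem W p)
    (X : 𝒱.Obj) (n s : ℕ) : pw X n ⟶ pw X n :=
  tup n fun i => pr X n (i + 1) ≫ Pool.Agent.W534.iter (Φ.Fr X) s

/-- The zeta function of a model of `Z` over the field with `Q` elements with the Frobenius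
endomorphism `f`, as a function of the complex variable `z`: the product of the
`det (1 - Q ^ (-z) f | H^i(Z))` for the odd `i`, divided by the product for the even `i`. -/
noncomputable def zetaOf (W : WeilCohomology.{u, v} ops) (σ : W.K →+* ℂ) {Z : 𝒱.Obj} (f : Z ⟶ Z)
    (Q : ℕ) (z : ℂ) : ℂ :=
  ∏ i ∈ Finset.range (2 * Z.dim + 1),
    (((charpolyOn (W.map f).toLinearMap (W.gr Z i)).map σ).reverse.eval ((Q : ℂ) ^ (-z))) ^
      ((-1 : ℤ) ^ (i + 1))

/-- Let `f` be the Frobenius endomorphism of a model of `Z` over the field with `Q` elements. The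
cycle `z` of codimension `j` is rational over this field modulo numerical equivalence: the
pull-back of `z` under `f` is numerically equivalent to `Q ^ j` times `z`. -/
def IsRationalCycle (ops : CycleOps 𝒱) {Z : 𝒱.Obj} (f : Z ⟶ Z) (Q j : ℕ) (z : Z.Cycles) : Prop :=
  Z.IsCyc j z ∧ ∀ w, Z.IsCyc (Z.dim - j) w →
    Z.V.degCycle (ops.mul (ops.pull f z) w) = (Q : ℚ) ^ j * Z.V.degCycle (ops.mul z w)

/-- The rank of the group of the cycles of codimension `j` on the model of `Z` over the field with
`Q` elements with the Frobenius endomorphism `f`, modulo numerical equivalence: the dimension of the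
space of the rational cycles with rational coefficients modulo numerical equivalence. -/
noncomputable def rationalRank (ops : CycleOps 𝒱) {Z : 𝒱.Obj} (f : Z ⟶ Z) (Q j : ℕ) : ℕ :=
  Module.finrank ℚ (Submodule.span ℚ (Set.range
    fun z : {z : Z.Cycles // IsRationalCycle ops f Q j z} => interNumbers ops Z j ⟨z.1, z.2.1⟩))

/-- Tate's formula at `j` for the zeta function of the model of `Z` over the field with `Q` elements
with the Frobenius endomorphism `f`: the order at `j` is the negative of the rank of the group of
the cycles of codimension `j` on this model modulo numerical equivalence. -/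
def FormulaOver (W : WeilCohomology.{u, v} ops) (σ : W.K →+* ℂ) {Z : 𝒱.Obj} (f : Z ⟶ Z)
    (Q j : ℕ) : Prop :=
  meromorphicOrderAt (zetaOf W σ f Q) (j : ℂ) = ((-(rationalRank ops f Q j : ℤ) : ℤ) : WithTop ℤ)

end Pool.Agent.H50.WR
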